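import Pool.Agent.T3h87.LT.Real

/-!
# Weighted sums of functions of several residues which may be as large as the square root of the prime
-/

set_option autoImplicit false

namespace Pool.Agent.T3h87.LT

open Finset Filter
open Pool.Agent.R459.Eq (pri mem_pri mean Vs)
open Pool.Agent.N794.CG (meanD meanD_eq)

/-- the mean over the residue classes -/
lemma meanD_zmod (p : ℕ) (hp : p.Prime) (D : ℕ) [Fintype (ZMod p)] (g : (Fin D → ZMod p) → ℝ) :
    meanD p D (fun m => g (fun l => (m l : ZMod p))) = (∑ u, g u) / (Fintype.card (ZMod p) : ℝ) ^ D := by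
  classical
  have hne : NeZero p := ⟨hp.ne_zero⟩
  have hcard : Fintype.card (ZMod p) = p := by
    rw [Fintype.card_eq_nat_card, Nat.card_zmod]
  rw [meanD_eq, hcard, one_div, div_eq_inv_mul]
  congr 1
  refine sum_nbij' (fun n l => ((n l : ℕ) : ZMod p)) (fun u l => (u l).val) ?_ ?_ ?_ ?_ ?_
  · intro n _
    exact mem_univ _
  · intro u _
    rw [Fintype.mem_piFinset]
    intro l
    rw [mem_range]
    exact ZMod.val_lt _
  · intro n hn
    rw [Fintype.mem_piFinset] at hn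
    funext l
    exact ZMod.val_natCast_of_lt (mem_range.1 (hn l))
  · intro u _
    funext l
    exact ZMod.natCast_zmod_val _
  · intro n _
    simp

lemma dvd_eval {D : ℕ} (Z : MvPolynomial (Fin D) ℤ) (p : ℕ) (m : Fin D → ℤ) :
    ((p : ℤ) ∣ MvPolynomial.eval m Z) ↔ MvPolynomial.eval (fun l => (m l : ZMod p)) (MvPolynomial.map (Int.castRingHom (ZMod p)) Z) = 0 := by
  rw [← ZMod.intCast_zmod_eq_zero_iff_dvd, MvPolynomial.eval_map]
  have h2 := MvPolynomial.eval₂_comp_left (Int.castRingHom (ZMod p)) (RingHom.id ℤ) m Z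
  have h3 : ((MvPolynomial.eval m Z : ℤ) : ZMod p) = MvPolynomial.eval₂ (Int.castRingHom (ZMod p)) (fun l => (m l : ZMod p)) Z := by
    have h4 : (Int.castRingHom (ZMod p)) (MvPolynomial.eval m Z) = MvPolynomial.eval₂ (Int.castRingHom (ZMod p)) (fun l => (m l : ZMod p)) Z := by
      rw [MvPolynomial.eval, MvPolynomial.coe_eval₂Hom, h2]
      rfl
    exact h4
  rw [h3]

open Classical in
/-- the proportion of the zeros of a polynomial -/
lemma zero_mean {D : ℕ} (Z : MvPolynomial (Fin D) ℤ) (hZ : Z ≠ 0) : ∃ C : ℝ, 1 ≤ C ∧ ∀ p : ℕ, p.Prime →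
    meanD p D (fun m => if (p : ℤ) ∣ MvPolynomial.eval m Z then 1 else 0) ≤ C / p := by
  obtain ⟨s, hs⟩ : ∃ s, Z.coeff s ≠ 0 := by
    by_contra hcon
    push Not at hcon
    exact hZ (MvPolynomial.ext _ _ fun s => by rw [hcon s, MvPolynomial.coeff_zero])
  obtain ⟨a, ha⟩ : ∃ a, a = Z.coeff s := ⟨_, rfl⟩
  rw [← ha] at hs
  refine ⟨Z.totalDegree + |(a : ℝ)|, ?_, fun p hp => ?_⟩
  · have h1 : (1 : ℝ) ≤ |(a : ℝ)| := by
      rw [← Int.cast_abs]
      exact_mod_cast Int.one_le_abs hs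
    have h2 : (0 : ℝ) ≤ Z.totalDegree := Nat.cast_nonneg _
    linarith
  have hp0 : (0 : ℝ) < p := by exact_mod_cast hp.pos
  have hF : Fact p.Prime := ⟨hp⟩
  by_cases hpa : (p : ℤ) ∣ a
  · have h1 : (p : ℝ) ≤ |(a : ℝ)| := by
      have h2 : (p : ℤ) ≤ |a| := Int.le_of_dvd (abs_pos.2 hs) ((dvd_abs _ _).2 hpa)
      rw [← Int.cast_abs]
      exact_mod_cast h2
    refine (meanD_mono p D _ (fun _ => 1) fun m => by split_ifs <;> norm_num).trans ?_
    rw [meanD_one p D hp.pos, le_div_iff₀ hp0, one_mul]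
    have h2 : (0 : ℝ) ≤ Z.totalDegree := Nat.cast_nonneg _
    linarith
  · obtain ⟨Zp, hZp⟩ : ∃ Zp, Zp = MvPolynomial.map (Int.castRingHom (ZMod p)) Z := ⟨_, rfl⟩
    have hne : Zp ≠ 0 := by
      intro h0
      apply hpa
      have h1 := congrArg (MvPolynomial.coeff s) h0
      rw [hZp, MvPolynomial.coeff_map, MvPolynomial.coeff_zero, ← ha] at h1
      exact (ZMod.intCast_zmod_eq_zero_iff_dvd a p).1 (by simpa using h1)
    have h1 : ∀ m : Fin D → ℤ, ((p : ℤ) ∣ MvPolynomial.eval m Z) ↔ MvPolynomial.eval (fun l => (m l : ZMod p)) Zp = 0 := by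
      intro m
      rw [dvd_eval, hZp]
    have h2 := meanD_zmod p hp D (fun u => if MvPolynomial.eval u Zp = 0 then (1 : ℝ) else 0)
    simp only [h1]
    rw [h2, sum_boole]
    have h3 := MvPolynomial.schwartz_zippel_totalDegree hne (univ : Finset (ZMod p))
    rw [Fintype.piFinset_univ, card_univ] at h3
    have h4 := (NNRat.cast_le (K := ℝ)).2 h3
    push_cast at h4
    have hcard : Fintype.card (ZMod p) = p := ZMod.card p
    rw [hcard] at h4 ⊢
    refine h4.trans ?_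
    have h5 : Zp.totalDegree ≤ Z.totalDegree := by
      rw [hZp]
      exact Finset.sup_mono (MvPolynomial.support_map_subset _ _)
    have h6 : (Zp.totalDegree : ℝ) ≤ Z.totalDegree + |(a : ℝ)| := by
      have : (Zp.totalDegree : ℝ) ≤ Z.totalDegree := by exact_mod_cast h5
      have := abs_nonneg (a : ℝ)
      linarith
    exact div_le_div_of_nonneg_right h6 hp0.le

/-- summation by parts -/
lemma parts (a g : ℕ → ℝ) (hg : Monotone g) (hg0 : 0 ≤ g 0) (M : ℝ) (N : ℕ) (hA : ∀ k ≤ N, |∑ n ∈ range k, a n| ≤ M) :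
    |∑ n ∈ range N, a n * g n| ≤ 2 * (g N * M) := by
  have h1 : ∀ k ≤ N, |∑ n ∈ range k, a n * g n - g k * ∑ n ∈ range k, a n| ≤ g k * M := by
    intro k
    induction k with
    | zero =>
      intro hk
      have := hA 0 hk
      rw [sum_range_zero, sum_range_zero, mul_zero, sub_zero, abs_zero]
      rw [sum_range_zero, abs_zero] at this
      exact mul_nonneg hg0 this
    | succ k ih =>
      intro hk
      have h2 := ih (by omega)
      have h3 := hA (k + 1) hk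
      rw [sum_range_succ, sum_range_succ (f := a)]
      rw [sum_range_succ] at h3
      have e1 : ∑ n ∈ range k, a n * g n + a k * g k - g (k + 1) * (∑ n ∈ range k, a n + a k) =
          (∑ n ∈ range k, a n * g n - g k * ∑ n ∈ range k, a n) - (g (k + 1) - g k) * (∑ n ∈ range k, a n + a k) := by ring
      rw [e1]
      have h4 : 0 ≤ g (k + 1) - g k := sub_nonneg.2 (hg (Nat.le_succ k))
      refine (abs_sub _ _).trans ?_
      rw [abs_mul, abs_of_nonneg h4]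
      have h5 := mul_le_mul_of_nonneg_left h3 h4
      linarith
  have h2 := h1 N le_rfl
  have h3 := hA N le_rfl
  have hgN : 0 ≤ g N := hg0.trans (hg (Nat.zero_le N))
  have h4 : |g N * ∑ n ∈ range N, a n| ≤ g N * M := by
    rw [abs_mul, abs_of_nonneg hgN]
    exact mul_le_mul_of_nonneg_left h3 hgN
  have h5 := abs_add_le (∑ n ∈ range N, a n * g n - g N * ∑ n ∈ range N, a n) (g N * ∑ n ∈ range N, a n)
  rw [sub_add_cancel] at h5
  linarith

/-- the sum of `p ^ (-1/2)` -/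
lemma sum_inv_sqrt (x : ℕ) : ∑ p ∈ pri x, 1 / √(p : ℝ) ≤ 2 * √x := by
  have h1 : ∑ p ∈ pri x, 1 / √(p : ℝ) ≤ ∑ n ∈ range x, 1 / √((n : ℝ) + 1) := by
    have h2 : ∑ n ∈ range x, 1 / √((n : ℝ) + 1) = ∑ n ∈ Icc 1 x, 1 / √(n : ℝ) := by
      refine sum_nbij' (fun n => n + 1) (fun n => n - 1) ?_ ?_ ?_ ?_ ?_
      · intro n hn
        rw [mem_range] at hn
        rw [mem_Icc]
        omega
      · intro n hn
        rw [mem_Icc] at hn
        rw [mem_range]
        omega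
      · intro n _
        simp
      · intro n hn
        rw [mem_Icc] at hn
        omega
      · intro n _
        push_cast
        rfl
    rw [h2]
    refine sum_le_sum_of_subset_of_nonneg (fun p hp => ?_) fun n _ _ => by positivity
    rw [mem_pri] at hp
    rw [mem_Icc]
    exact ⟨hp.2.pos, hp.1⟩
  refine h1.trans ?_
  clear h1
  induction x with
  | zero => simp
  | succ x ih =>
    rw [sum_range_succ]
    have hs : 0 < √((x : ℝ) + 1) := Real.sqrt_pos.2 (by positivity)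
    have h0 : 0 ≤ √(x : ℝ) := Real.sqrt_nonneg _
    have h1 : √((x : ℝ) + 1) ^ 2 = x + 1 := Real.sq_sqrt (by positivity)
    have h2 : √(x : ℝ) ^ 2 = x := Real.sq_sqrt (by positivity)
    have h3 : 1 / √((x : ℝ) + 1) ≤ 2 * √((x : ℝ) + 1) - 2 * √(x : ℝ) := by
      rw [div_le_iff₀ hs]
      nlinarith [sq_nonneg (√((x : ℝ) + 1) - √(x : ℝ))]
    push_cast
    linarith

/-- Cauchy-Schwarz -/
lemma meanD_cs (p D : ℕ) (f g : (Fin D → ℤ) → ℝ) : meanD p D (fun m => f m * g m) ^ 2 ≤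
    meanD p D (fun m => f m ^ 2) * meanD p D (fun m => g m ^ 2) := by
  rw [meanD_eq, meanD_eq, meanD_eq]
  have h1 := sum_mul_sq_le_sq_mul_sq (Fintype.piFinset (fun _ : Fin D => range p)) (fun n => f (fun l => (n l : ℤ)))
    (fun n => g (fun l => (n l : ℤ)))
  have h2 : 0 ≤ (1 / (p : ℝ) ^ D) ^ 2 := by positivity
  have h3 := mul_le_mul_of_nonneg_left h1 h2
  calc (1 / (p : ℝ) ^ D * ∑ n ∈ Fintype.piFinset (fun _ : Fin D => range p), f (fun l => (n l : ℤ)) * g (fun l => (n l : ℤ))) ^ 2 =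
        (1 / (p : ℝ) ^ D) ^ 2 * (∑ n ∈ Fintype.piFinset (fun _ : Fin D => range p), f (fun l => (n l : ℤ)) * g (fun l => (n l : ℤ))) ^ 2 := by ring
    _ ≤ _ := h3
    _ = _ := by ring

lemma mono_g : Monotone (fun n : ℕ => √(n : ℝ) * Real.log n) := by
  intro a b hab
  rcases Nat.eq_zero_or_pos a with h | h
  · subst h
    simp only [Nat.cast_zero, Real.sqrt_zero, zero_mul]
    exact mul_nonneg (Real.sqrt_nonneg _) (Real.log_natCast_nonneg _)
  · have h1 : (0 : ℝ) < a := by exact_mod_cast h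
    have h2 : (a : ℝ) ≤ b := by exact_mod_cast hab
    exact mul_le_mul (Real.sqrt_le_sqrt h2) (Real.log_le_log h1 h2) (Real.log_natCast_nonneg _) (Real.sqrt_nonneg _)

/-- the final inequality -/
lemma fin_ineq (C C₂ δ : ℝ) (hC : 1 ≤ C) (hC₂ : 0 ≤ C₂) (hδ : 0 < δ) (hδ1 : δ ≤ 1) : ∃ X₁ : ℕ, 1 ≤ X₁ ∧ ∀ T : ℕ, X₁ ≤ T →
    4 * C * ((√((T + 1 : ℕ) : ℝ) * Real.log ((T + 1 : ℕ) : ℝ)) * ((T : ℝ) ^ (1 / 2 + δ / 2) + 2 * C₂ * √T)) ≤ (T : ℝ) ^ (1 + δ) := by
  have h1 : ∀ᶠ x : ℕ in atTop, 4 * C * (2 * (2 / (δ / 4))) * (1 + 2 * C₂) ≤ (x : ℝ) ^ (δ / 4) :=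
    ((tendsto_rpow_atTop (by positivity : 0 < δ / 4)).comp tendsto_natCast_atTop_atTop).eventually_ge_atTop _
  obtain ⟨X₁, hX₁⟩ := eventually_atTop.1 h1
  refine ⟨X₁ + 1, by omega, fun T hT => ?_⟩
  have h2 := hX₁ T (by omega)
  have hT1 : (1 : ℝ) ≤ T := by exact_mod_cast (by omega : 1 ≤ T)
  have hT0 : (0 : ℝ) < T := by linarith
  have h3 : √((T + 1 : ℕ) : ℝ) ≤ 2 * √T := by
    rw [Real.sqrt_le_left (by positivity), mul_pow, Real.sq_sqrt hT0.le]
    push_cast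
    linarith
  have h4 : Real.log ((T + 1 : ℕ) : ℝ) ≤ 2 / (δ / 4) * (T : ℝ) ^ (δ / 4) := by
    have h5 := Real.log_le_rpow_div (Nat.cast_nonneg (T + 1) : (0 : ℝ) ≤ ((T + 1 : ℕ) : ℝ)) (by positivity : 0 < δ / 4)
    refine h5.trans ?_
    have h6 : (((T + 1 : ℕ) : ℝ)) ^ (δ / 4) ≤ 2 * (T : ℝ) ^ (δ / 4) := by
      calc (((T + 1 : ℕ) : ℝ)) ^ (δ / 4) ≤ (2 * T) ^ (δ / 4) := by
            apply Real.rpow_le_rpow (Nat.cast_nonneg _) _ (by positivity)
            push_cast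
            linarith
        _ = 2 ^ (δ / 4) * (T : ℝ) ^ (δ / 4) := Real.mul_rpow (by norm_num) hT0.le
        _ ≤ 2 ^ (1 : ℝ) * (T : ℝ) ^ (δ / 4) := by
            apply mul_le_mul_of_nonneg_right _ (by positivity)
            exact Real.rpow_le_rpow_of_exponent_le (by norm_num) (by linarith)
        _ = _ := by rw [Real.rpow_one]
    rw [div_le_iff₀ (by positivity)]
    have h7 : 2 / (δ / 4) * (T : ℝ) ^ (δ / 4) * (δ / 4) = 2 * (T : ℝ) ^ (δ / 4) := by field_simp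
    rw [h7]
    exact h6
  have h5 : √(T : ℝ) ≤ (T : ℝ) ^ (1 / 2 + δ / 2) := by
    rw [Real.sqrt_eq_rpow]
    exact Real.rpow_le_rpow_of_exponent_le hT1 (by linarith)
  have h6 : (T : ℝ) ^ (1 / 2 + δ / 2) + 2 * C₂ * √T ≤ (1 + 2 * C₂) * (T : ℝ) ^ (1 / 2 + δ / 2) := by
    have := mul_le_mul_of_nonneg_left h5 (by positivity : 0 ≤ 2 * C₂)
    linarith
  have h7 : 0 ≤ Real.log ((T + 1 : ℕ) : ℝ) := Real.log_natCast_nonneg _
  have h8 : √((T + 1 : ℕ) : ℝ) * Real.log ((T + 1 : ℕ) : ℝ) ≤ (2 * √T) * (2 / (δ / 4) * (T : ℝ) ^ (δ / 4)) :=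
    mul_le_mul h3 h4 h7 (by positivity)
  have h9 : (√((T + 1 : ℕ) : ℝ) * Real.log ((T + 1 : ℕ) : ℝ)) * ((T : ℝ) ^ (1 / 2 + δ / 2) + 2 * C₂ * √T) ≤
      ((2 * √T) * (2 / (δ / 4) * (T : ℝ) ^ (δ / 4))) * ((1 + 2 * C₂) * (T : ℝ) ^ (1 / 2 + δ / 2)) :=
    mul_le_mul h8 h6 (by positivity) (by positivity)
  have h10 : (T : ℝ) ^ (1 + δ) = (T : ℝ) ^ (δ / 4) * (√T * (T : ℝ) ^ (δ / 4) * (T : ℝ) ^ (1 / 2 + δ / 2)) := by
    rw [Real.sqrt_eq_rpow, ← Real.rpow_add hT0, ← Real.rpow_add hT0, ← Real.rpow_add hT0]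
    congr 1
    ring
  rw [h10]
  calc _ ≤ 4 * C * (((2 * √T) * (2 / (δ / 4) * (T : ℝ) ^ (δ / 4))) * ((1 + 2 * C₂) * (T : ℝ) ^ (1 / 2 + δ / 2))) :=
        mul_le_mul_of_nonneg_left h9 (by linarith)
    _ = (4 * C * (2 * (2 / (δ / 4))) * (1 + 2 * C₂)) * (√T * (T : ℝ) ^ (δ / 4) * (T : ℝ) ^ (1 / 2 + δ / 2)) := by ring
    _ ≤ _ := mul_le_mul_of_nonneg_right h2 (by positivity)

end Pool.Agent.T3h87.LT
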