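import Pool.Agent.T3h87.LT.Sps2

/-!
# Sums with the factor `√p log p` of functions which may be as large as `√p`
-/

set_option autoImplicit false

namespace Pool.Agent.T3h87.LT

open Finset Filter
open Pool.Agent.R459.Eq (pri mem_pri mean Vs)
open Pool.Agent.N794.CG (meanD meanD_eq)

/-- **Sums with the factor `√p log p`.** -/
theorem sparse_gen (D : ℕ) (F : Fin D → ℤ → Set Fam) (hF : ∀ l, Kind (F l)) (C₂ : ℝ) (hC₂0 : 0 ≤ C₂)
    (δ : ℝ) (hδ : 0 < δ) (hδ1 : δ ≤ 1) :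
    ∃ (W e K : ℕ) (ρ : ℝ), 1 ≤ W ∧ 1 ≤ K ∧ 0 < ρ ∧ ∀ κ : Fin D → ℤ, (∀ l, κ l ≠ 0) → ∃ X₀ : ℕ, 1 ≤ X₀ ∧ ∀ X : ℕ, X₀ ≤ X →
    ∀ f : Fin D → Fam, (∀ l, f l ∈ F l (κ l)) →
    ∀ φ : ℕ → ℕ → (Fin D → ℤ) → ℝ, SysR φ → (∀ i p : ℕ, p.Prime → |meanD p D (φ i p)| ≤ C₂ * (1 / √p)) →
    ∀ E : Finset (∀ l, (f l).ι), E ⊆ Fintype.piFinset (fun l => (f l).set) →
    (∀ i ∈ E, ∃ x : ℕ, X ≤ x ∧ (∀ l, (x : ℝ) ^ W ≤ (f l).size) ∧ ∃ j : ℕ, (j + 1) ^ K ≤ x ∧
      (x : ℝ) ^ (1 + δ) < |∑ p ∈ pri x, φ j p (fun l => (f l).val (i l)) * (√p * Real.log p)|) →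
    ∑ i ∈ E, ∏ l, (f l).wt (i l) ≤ (∑ l, (1 + |Real.log (f l).size|) ^ e) * (X : ℝ) ^ (-ρ) := by
  obtain ⟨W, e, K, ρ, hW, hK, hρ, H⟩ := real_all D F hF (δ / 2) (by positivity) (by linarith)
  obtain ⟨X₁, hX₁, hfin⟩ := fin_ineq 1 C₂ δ le_rfl hC₂0 hδ hδ1
  refine ⟨W, e, 12 * K, ρ / 8, hW, by omega, by positivity, fun κ hκ => ?_⟩
  obtain ⟨X₂, J⟩ := H κ hκ
  obtain ⟨N₀, hN₀⟩ : ∃ N₀, N₀ = X₂ + 2 ^ K + 2 := ⟨_, rfl⟩
  have h2K : 0 < 2 ^ K := by positivity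
  refine ⟨X₁ + (N₀ + 1) ^ 4 + 256, by omega, fun X hX f hf φ hsys hmn E hE hbad => ?_⟩
  -- the fourth root
  have hroot : ∀ T : ℕ, (N₀ + 1) ^ 4 ≤ T → N₀ ≤ Nat.sqrt (Nat.sqrt T) := by
    intro T hT
    rw [Nat.le_sqrt', Nat.le_sqrt']
    calc (N₀ ^ 2) ^ 2 = N₀ ^ 4 := by rw [← pow_mul]
      _ ≤ (N₀ + 1) ^ 4 := Nat.pow_le_pow_left (by omega) 4
      _ ≤ T := hT
  obtain ⟨X', hX'⟩ : ∃ X', X' = Nat.sqrt (Nat.sqrt X) := ⟨_, rfl⟩
  have hX'1 : N₀ ≤ X' := by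
    rw [hX']
    exact hroot X (by omega)
  have hXr : (256 : ℝ) ≤ X := by exact_mod_cast (by omega : 256 ≤ X)
  have hX0 : (0 : ℝ) < X := by linarith
  have hX'r : (X : ℝ) ^ (1 / 8 : ℝ) ≤ X' := by
    have h1 : X < (X' + 1) ^ 4 := by
      have h2 := Nat.lt_succ_sqrt' X
      have h3 := Nat.lt_succ_sqrt' (Nat.sqrt X)
      rw [← hX'] at h3
      calc X < (Nat.sqrt X).succ ^ 2 := h2
        _ ≤ (X'.succ ^ 2) ^ 2 := Nat.pow_le_pow_left (Nat.succ_le_of_lt h3) 2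
        _ = (X' + 1) ^ 4 := by rw [← pow_mul]
    have h2 : (X : ℝ) ≤ (2 * X') ^ 4 := by
      have h3 : (X' + 1) ^ 4 ≤ (2 * X') ^ 4 := Nat.pow_le_pow_left (by omega) 4
      exact_mod_cast (h1.trans_le h3).le
    have h3 : (X : ℝ) ^ (1 / 4 : ℝ) ≤ 2 * X' := by
      calc (X : ℝ) ^ (1 / 4 : ℝ) ≤ ((2 * (X' : ℝ)) ^ 4) ^ (1 / 4 : ℝ) := Real.rpow_le_rpow hX0.le h2 (by norm_num)
        _ = 2 * X' := by
          rw [← Real.rpow_natCast, ← Real.rpow_mul (by positivity)]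
          norm_num
    have h4 : (2 : ℝ) ≤ (X : ℝ) ^ (1 / 8 : ℝ) := by
      calc (2 : ℝ) = (256 : ℝ) ^ (1 / 8 : ℝ) := by
            rw [show (256 : ℝ) = 2 ^ (8 : ℕ) by norm_num, ← Real.rpow_natCast, ← Real.rpow_mul (by norm_num)]
            norm_num
        _ ≤ _ := Real.rpow_le_rpow (by norm_num) hXr (by norm_num)
    have h5 : (X : ℝ) ^ (1 / 4 : ℝ) = (X : ℝ) ^ (1 / 8 : ℝ) * (X : ℝ) ^ (1 / 8 : ℝ) := by
      rw [← Real.rpow_add hX0]
      norm_num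
    nlinarith
  have hmono : (∑ l, (1 + |Real.log (f l).size|) ^ e) * (X' : ℝ) ^ (-ρ) ≤ (∑ l, (1 + |Real.log (f l).size|) ^ e) * (X : ℝ) ^ (-(ρ / 8)) := by
    apply mul_le_mul_of_nonneg_left _ (sum_nonneg fun l _ => by positivity)
    calc (X' : ℝ) ^ (-ρ) ≤ ((X : ℝ) ^ (1 / 8 : ℝ)) ^ (-ρ) :=
          Real.rpow_le_rpow_of_nonpos (by positivity) hX'r (by linarith)
      _ = (X : ℝ) ^ (-(ρ / 8)) := by
          rw [← Real.rpow_mul hX0.le]
          congr 1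
          ring
  refine le_trans (J X' (by omega) f hf φ hsys E hE fun i hi => ?_) hmono
  obtain ⟨T, hXT, hsz, j, hj, hlt⟩ := hbad i hi
  obtain ⟨m, hm⟩ : ∃ m : Fin D → ℤ, m = fun l => (f l).val (i l) := ⟨_, rfl⟩
  rw [← hm] at hlt ⊢
  by_contra hcon
  push Not at hcon
  obtain ⟨s, hs⟩ : ∃ s, s = Nat.sqrt (Nat.sqrt T) := ⟨_, rfl⟩
  have hsN : N₀ ≤ s := by rw [hs]; exact hroot T (by omega)
  have hX's : X' ≤ s := by
    rw [hX', hs]
    exact Nat.sqrt_le_sqrt (Nat.sqrt_le_sqrt hXT)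
  have hT1 : (1 : ℝ) ≤ T := by exact_mod_cast (by omega : 1 ≤ T)
  have hT0 : (0 : ℝ) < T := by linarith
  have hsj : (j + 1) ^ (3 * K) ≤ s := by
    rw [hs, Nat.le_sqrt', Nat.le_sqrt', ← pow_mul, ← pow_mul]
    refine le_trans (le_of_eq ?_) hj
    congr 1
    ring
  obtain ⟨M, hM⟩ : ∃ M, M = (T : ℝ) ^ (1 / 2 + δ / 2) + 2 * C₂ * √T := ⟨_, rfl⟩
  have hM0 : 0 ≤ M := by rw [hM]; positivity
  -- the partial sums
  have hS : ∀ i' : ℕ, i' + 1 ≤ 2 * (j + 1) → ∀ n ≤ T, |∑ p ∈ pri n, φ i' p m| ≤ M := by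
    intro i' hi' n hn
    have hnT : (n : ℝ) ≤ T := by exact_mod_cast hn
    rcases lt_or_ge n s with hns | hns
    · have h1 : |∑ p ∈ pri n, φ i' p m| ≤ ∑ p ∈ pri n, (n : ℝ) := by
        refine (abs_sum_le_sum_abs _ _).trans (sum_le_sum fun p hp => ?_)
        have hpp := mem_pri.1 hp
        refine (hsys.bd i' p hpp.2 m).trans ?_
        rw [Real.sqrt_le_left (Nat.cast_nonneg _)]
        have h2 : (p : ℝ) ≤ n := by exact_mod_cast hpp.1
        have h3 : (1 : ℝ) ≤ n := le_trans (by exact_mod_cast hpp.2.one_lt.le) h2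
        nlinarith
      rw [sum_const, nsmul_eq_mul] at h1
      have h2 := pri_card n
      have h3 : ((pri n).card : ℝ) * n ≤ √T := by
        have h4 : n * n ≤ Nat.sqrt T := by
          have h5 : s * s ≤ Nat.sqrt T := by rw [hs]; exact Nat.sqrt_le _
          exact (Nat.mul_le_mul hns.le hns.le).trans h5
        have h5 : ((n : ℝ)) * n ≤ Nat.sqrt T := by exact_mod_cast h4
        have h6 : (Nat.sqrt T : ℝ) ≤ √T := by
          apply Real.le_sqrt_of_sq_le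
          have := Nat.sqrt_le' T
          exact_mod_cast this
        exact ((mul_le_mul_of_nonneg_right h2 (Nat.cast_nonneg n)).trans h5).trans h6
      have h4 : √(T : ℝ) ≤ (T : ℝ) ^ (1 / 2 + δ / 2) := by
        rw [Real.sqrt_eq_rpow]
        exact Real.rpow_le_rpow_of_exponent_le hT1 (by linarith)
      have h5 : 0 ≤ 2 * C₂ * √(T : ℝ) := by positivity
      rw [hM]
      linarith
    · have hn1 : (1 : ℝ) ≤ n := by exact_mod_cast (by omega : 1 ≤ n)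
      have hidx : (i' + 1) ^ K ≤ n := by
        refine le_trans (Nat.pow_le_pow_left hi' K) ?_
        rcases Nat.eq_zero_or_pos j with h0 | h0
        · subst h0
          rw [zero_add, mul_one]
          omega
        · have h1 : 2 * (j + 1) ≤ (j + 1) ^ 3 := by
            have h3 : 2 ≤ (j + 1) ^ 2 := by nlinarith
            calc 2 * (j + 1) ≤ (j + 1) ^ 2 * (j + 1) := Nat.mul_le_mul_right _ h3
              _ = (j + 1) ^ 3 := by ring
          calc (2 * (j + 1)) ^ K ≤ ((j + 1) ^ 3) ^ K := Nat.pow_le_pow_left h1 K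
            _ = (j + 1) ^ (3 * K) := by rw [← pow_mul]
            _ ≤ n := hsj.trans hns
      have h1 := hcon n (by omega) (fun l => le_trans (pow_le_pow_left₀ (Nat.cast_nonneg _) hnT W) (hsz l)) i' hidx
      have h2 : |∑ p ∈ pri n, meanD p D (φ i' p)| ≤ 2 * C₂ * √T := by
        refine (abs_sum_le_sum_abs _ _).trans ?_
        calc ∑ p ∈ pri n, |meanD p D (φ i' p)| ≤ ∑ p ∈ pri n, C₂ * (1 / √p) := by
              exact sum_le_sum fun p hp => hmn i' p (mem_pri.1 hp).2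
          _ = C₂ * ∑ p ∈ pri n, (1 / √(p : ℝ)) := by rw [mul_sum]
          _ ≤ C₂ * (2 * √n) := mul_le_mul_of_nonneg_left (sum_inv_sqrt n) hC₂0
          _ ≤ C₂ * (2 * √T) := by
              apply mul_le_mul_of_nonneg_left _ hC₂0
              have := Real.sqrt_le_sqrt hnT
              linarith
          _ = _ := by ring
      have h3 : (n : ℝ) ^ (1 / 2 + δ / 2) ≤ (T : ℝ) ^ (1 / 2 + δ / 2) :=
        Real.rpow_le_rpow (Nat.cast_nonneg _) hnT (by linarith)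
      rw [sum_sub_distrib] at h1
      have h4 := abs_add_le (∑ p ∈ pri n, φ i' p m - ∑ p ∈ pri n, meanD p D (φ i' p))
        (∑ p ∈ pri n, meanD p D (φ i' p))
      rw [sub_add_cancel] at h4
      rw [hM]
      linarith
  -- summation by parts
  obtain ⟨g, hg⟩ : ∃ g : ℕ → ℝ, g = fun n : ℕ => √(n : ℝ) * Real.log n := ⟨_, rfl⟩
  have hgm : Monotone g := by rw [hg]; exact mono_g
  have hg0 : ∀ n, 0 ≤ g n := fun n => by
    rw [hg]
    exact mul_nonneg (Real.sqrt_nonneg _) (Real.log_natCast_nonneg _)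
  have hP : ∀ i' : ℕ, i' + 1 ≤ 2 * (j + 1) → |∑ p ∈ pri T, φ i' p m * g p| ≤ 2 * (g (T + 1) * M) := by
    intro i' hi'
    have epri : ∀ n, (range (n + 1)).filter Nat.Prime = pri n := by
      intro n
      ext p
      rw [mem_filter, mem_range, mem_pri]
      constructor
      · rintro ⟨h1, h2⟩
        exact ⟨by omega, h2⟩
      · rintro ⟨h1, h2⟩
        exact ⟨by omega, h2⟩
    have h1 := parts (fun n => if n.Prime then φ i' n m else 0) g hgm (hg0 0) M (T + 1) (by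
      intro k hk
      rcases Nat.eq_zero_or_pos k with h0 | h0
      · subst h0
        rw [sum_range_zero, abs_zero]
        exact hM0
      · obtain ⟨n, rfl⟩ : ∃ n, k = n + 1 := ⟨k - 1, by omega⟩
        rw [← sum_filter, epri]
        exact hS i' hi' n (by omega))
    have h2 : ∑ n ∈ range (T + 1), (if n.Prime then φ i' n m else 0) * g n = ∑ p ∈ pri T, φ i' p m * g p := by
      rw [← epri, sum_filter]
      refine sum_congr rfl fun n _ => ?_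
      split_ifs
      · rfl
      · rw [zero_mul]
    rw [h2] at h1
    exact h1
  have h1 := hP j (by omega)
  have e1 : ∑ p ∈ pri T, φ j p m * g p = ∑ p ∈ pri T, φ j p m * (√p * Real.log p) := by
    refine sum_congr rfl fun p _ => ?_
    rw [hg]
  rw [e1] at h1
  have h6 := hfin T (by omega)
  rw [← hM] at h6
  have h7 : g (T + 1) = √((T + 1 : ℕ) : ℝ) * Real.log ((T + 1 : ℕ) : ℝ) := by rw [hg]
  rw [h7] at h1
  have h8 : 0 ≤ √((T + 1 : ℕ) : ℝ) * Real.log ((T + 1 : ℕ) : ℝ) * M := by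
    rw [← h7]
    exact mul_nonneg (hg0 _) hM0
  linarith

end Pool.Agent.T3h87.LT
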