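import Pool.Agent.T3h87.LT.Poly

/-!
# Arbitrary sequences of properties of several residues

No bound for the number of the properties which are true at a prime is assumed.
-/

set_option autoImplicit false

namespace Pool.Agent.T3h87.LT

open Finset Filter
open Pool.Agent.R459.Eq (pri mem_pri mean Vs)
open Pool.Agent.N794.CG (FineAt Avh meanD FS QF Mostly)

/-- functions of several residues with values in `[0, 1]` -/
structure SysA {D : ℕ} (h : ℕ → ℕ → (Fin D → ℤ) → ℝ) : Prop where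
  per : ∀ j p : ℕ, p.Prime → ∀ m m' : Fin D → ℤ, (∀ l, (p : ℤ) ∣ m l - m' l) → h j p m = h j p m'
  mem : ∀ j p : ℕ, p.Prime → ∀ m : Fin D → ℤ, 0 ≤ h j p m ∧ h j p m ≤ 1

/-- the system with a single function -/
def single {D : ℕ} (h : ℕ → ℕ → (Fin D → ℤ) → ℝ) (j : ℕ) : ℕ → ℕ → (Fin D → ℤ) → ℝ :=
  fun j' p m => if j' = 0 then h j p m else 0

lemma SysA.single {D : ℕ} {h : ℕ → ℕ → (Fin D → ℤ) → ℝ} (hh : SysA h) (j : ℕ) : SysN (single h j) := by
  refine ⟨?_, ?_, ?_⟩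
  · intro j' p hp m m' hm
    unfold LT.single
    rw [hh.per j p hp m m' hm]
  · intro j' p hp m
    unfold LT.single
    split_ifs
    · exact hh.mem j p hp m
    · norm_num
  · intro p hp m M
    have h1 : ∑ j' ∈ range M, (LT.single h j j' p m) ^ 2 ≤ ∑ j' ∈ range M, if j' = 0 then 1 else 0 := by
      apply sum_le_sum
      intro j' _
      unfold LT.single
      split_ifs
      · have := hh.mem j p hp m
        exact pow_le_one₀ this.1 this.2
      · norm_num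
    have h2 : ∑ j' ∈ range M, (if j' = 0 then (1 : ℝ) else 0) ≤ 1 := by
      rw [sum_ite_eq']
      split_ifs <;> norm_num
    have h3 : (0 : ℝ) ≤ (Nat.log 2 p : ℝ) := Nat.cast_nonneg _
    linarith

lemma sum_sq (J : ℕ) : ∑ j ∈ range (J + 1), 1 / ((j : ℝ) + 1) ^ 2 ≤ 2 - 1 / ((J : ℝ) + 1) := by
  induction J with
  | zero => norm_num
  | succ J ih =>
    rw [sum_range_succ]
    have h0 : (0 : ℝ) ≤ J := Nat.cast_nonneg J
    have h1 : 1 / ((J : ℝ) + 1 + 1) ^ 2 ≤ 1 / ((J : ℝ) + 1) - 1 / ((J : ℝ) + 1 + 1) := by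
      rw [div_sub_div _ _ (by positivity) (by positivity), div_le_div_iff₀ (by positivity) (by positivity)]
      nlinarith
    push_cast
    linarith

/-- **arbitrary sequences of properties** -/
theorem poly_all (D : ℕ) (F : Fin D → ℤ → Set Fam) (hF : ∀ l, Kind (F l)) (δ : ℝ) (hδ : 0 < δ) (hδ1 : δ ≤ 1) :
    ∃ (W e K : ℕ) (ρ : ℝ), 1 ≤ W ∧ 1 ≤ K ∧ 0 < ρ ∧ ∀ κ : Fin D → ℤ, (∀ l, κ l ≠ 0) → ∃ X₀ : ℕ, ∀ X : ℕ, X₀ ≤ X →
    ∀ f : Fin D → Fam, (∀ l, f l ∈ F l (κ l)) →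
    ∀ h : ℕ → ℕ → (Fin D → ℤ) → ℝ, SysA h → ∀ E : Finset (∀ l, (f l).ι), E ⊆ Fintype.piFinset (fun l => (f l).set) →
    (∀ i ∈ E, ∃ x : ℕ, X ≤ x ∧ (∀ l, (x : ℝ) ^ W ≤ (f l).size) ∧ ∃ j : ℕ, (j + 1) ^ K ≤ x ∧
      √(max 1 (∑ p ∈ pri (2 ^ D * x), meanD p D (h j p))) * (x : ℝ) ^ δ <
        |∑ p ∈ pri x, (h j p (fun l => (f l).val (i l)) - meanD p D (h j p))|) →
    ∑ i ∈ E, ∏ l, (f l).wt (i l) ≤ (∑ l, (1 + |Real.log (f l).size|) ^ e) * (X : ℝ) ^ (-ρ) := by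
  classical
  have hD : (0 : ℝ) ≤ D := Nat.cast_nonneg D
  obtain ⟨c, hc⟩ : ∃ c, c = δ / (8 * ((D : ℝ) + 1)) := ⟨_, rfl⟩
  have hc0 : 0 < c := by rw [hc]; positivity
  obtain ⟨W, e, hW, H⟩ := poly_gen D F hF δ hδ hδ1
  obtain ⟨K, hK⟩ : ∃ K, K = ⌈4 / c⌉₊ + 1 := ⟨_, rfl⟩
  have hKc : 2 ≤ K * (c / 2) := by
    have h1 : 4 / c ≤ (K : ℝ) := by
      rw [hK]
      push_cast
      linarith [Nat.le_ceil (4 / c)]
    rw [div_le_iff₀ hc0] at h1
    linarith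
  refine ⟨W, e, K, c / 2, hW, by omega, by linarith, fun κ hκ => ?_⟩
  obtain ⟨X₀, J⟩ := H κ hκ
  refine ⟨X₀ + 1, fun X hX f hf h hh E hE hbad => ?_⟩
  have hX1 : (1 : ℝ) ≤ X := by exact_mod_cast (by omega : 1 ≤ X)
  have hXp : (0 : ℝ) < X := by linarith
  have hw := (J X (by omega) f hf).1
  have hnn : ∀ i ∈ E, 0 ≤ ∏ l, (f l).wt (i l) := fun i hi =>
    prod_nonneg fun l _ => hw l _ (Fintype.mem_piFinset.1 (hE hi) l)
  obtain ⟨L, hL⟩ : ∃ L, L = ∑ l, (1 + |Real.log (f l).size|) ^ e := ⟨_, rfl⟩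
  have hL0 : 0 ≤ L := by
    rw [hL]
    exact sum_nonneg fun l _ => by positivity
  -- the exceptions for a single function
  obtain ⟨B, hB⟩ : ∃ B : ℕ → (∀ l, (f l).ι) → Prop, B = fun j i => ∃ x : ℕ, max X ((j + 1) ^ K) ≤ x ∧
      (∀ l, (x : ℝ) ^ W ≤ (f l).size) ∧
      √(max 1 (∑ p ∈ pri (2 ^ D * x), meanD p D (h j p))) * (x : ℝ) ^ δ <
        |∑ p ∈ pri x, (h j p (fun l => (f l).val (i l)) - meanD p D (h j p))| := ⟨_, rfl⟩
  have hone : ∀ j : ℕ, ∑ i ∈ E.filter (B j), ∏ l, (f l).wt (i l) ≤ 1 / 2 * L * ((X : ℝ) ^ (-(c / 2)) * (1 / ((j : ℝ) + 1) ^ 2)) := by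
    intro j
    have h1 := (J (max X ((j + 1) ^ K)) (le_trans (by omega) (le_max_left _ _)) f hf).2 (single h j) (hh.single j)
      (E.filter (B j)) ((filter_subset _ _).trans hE) (by
        intro i hi
        have h2 := (mem_filter.1 hi).2
        rw [hB] at h2
        obtain ⟨x, q1, q2, q3⟩ := h2
        refine ⟨x, q1, q2, 0, ?_, ?_⟩
        · push_cast
          positivity
        · have e9 : ∀ p, single h j 0 p = h j p := fun p => funext fun m => if_pos rfl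
          simp only [e9]
          exact q3)
    refine h1.trans ?_
    have e1 : ∑ l, loss (f l) e = L := by
      rw [hL]
      rfl
    rw [e1, ← hc]
    apply mul_le_mul_of_nonneg_left _ (by linarith)
    obtain ⟨Y, hY⟩ : ∃ Y : ℝ, Y = ((max X ((j + 1) ^ K) : ℕ) : ℝ) := ⟨_, rfl⟩
    have hYX : (X : ℝ) ≤ Y := by rw [hY]; exact_mod_cast le_max_left _ _
    have hYj : (((j : ℝ) + 1) ^ K) ≤ Y := by
      rw [hY]
      have : (((j + 1) ^ K : ℕ) : ℝ) ≤ ((max X ((j + 1) ^ K) : ℕ) : ℝ) := by exact_mod_cast le_max_right _ _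
      push_cast at this ⊢
      exact this
    have hYp : 0 < Y := by linarith
    rw [← hY]
    have hj1 : (1 : ℝ) ≤ (j : ℝ) + 1 := by linarith [Nat.cast_nonneg (α := ℝ) j]
    have hjp : (0 : ℝ) < (j : ℝ) + 1 := by linarith
    have e2 : Y ^ (-c) = Y ^ (-(c / 2)) * Y ^ (-(c / 2)) := by
      rw [← Real.rpow_add hYp]
      congr 1
      ring
    rw [e2]
    apply mul_le_mul _ _ (by positivity) (by positivity)
    · exact Real.rpow_le_rpow_of_nonpos hXp hYX (by linarith)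
    · calc Y ^ (-(c / 2)) ≤ (((j : ℝ) + 1) ^ K) ^ (-(c / 2)) :=
            Real.rpow_le_rpow_of_nonpos (by positivity) hYj (by linarith)
        _ = ((j : ℝ) + 1) ^ (-(K * (c / 2))) := by
            rw [← Real.rpow_natCast, ← Real.rpow_mul hjp.le]
            congr 1
            ring
        _ ≤ ((j : ℝ) + 1) ^ (-(2 : ℝ)) := Real.rpow_le_rpow_of_exponent_le hj1 (by linarith)
        _ = 1 / ((j : ℝ) + 1) ^ 2 := by
            rw [Real.rpow_neg hjp.le, one_div]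
            congr 1
            exact_mod_cast Real.rpow_natCast ((j : ℝ) + 1) 2
  -- all the functions
  have hcov : ∃ M : ℕ, ∀ i ∈ E, ∃ j : ℕ, j < M + 1 ∧ B j i := by
    obtain ⟨js, hjs⟩ : ∃ js : (∀ l, (f l).ι) → ℕ, ∀ i ∈ E, B (js i) i := by
      have h3 : ∀ i ∈ E, ∃ j, B j i := by
        intro i hi
        obtain ⟨x, q1, q2, j, q3, q4⟩ := hbad i hi
        refine ⟨j, ?_⟩
        rw [hB]
        exact ⟨x, max_le q1 q3, q2, q4⟩
      choose! js hjs using h3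
      exact ⟨js, hjs⟩
    refine ⟨E.sup js, fun i hi => ⟨js i, ?_, hjs i hi⟩⟩
    exact Nat.lt_succ_of_le (le_sup (f := js) hi)
  obtain ⟨M, hM⟩ := hcov
  have hsum : ∑ i ∈ E, ∏ l, (f l).wt (i l) ≤ ∑ j ∈ range (M + 1), ∑ i ∈ E.filter (B j), ∏ l, (f l).wt (i l) := by
    have e3 : ∀ j, ∑ i ∈ E.filter (B j), ∏ l, (f l).wt (i l) = ∑ i ∈ E, if B j i then ∏ l, (f l).wt (i l) else 0 :=
      fun j => sum_filter _ _
    simp only [e3]
    rw [sum_comm]
    apply sum_le_sum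
    intro i hi
    obtain ⟨j, hj, hBj⟩ := hM i hi
    have h4 : (if B j i then ∏ l, (f l).wt (i l) else 0) ≤ ∑ j ∈ range (M + 1), if B j i then ∏ l, (f l).wt (i l) else 0 :=
      single_le_sum (f := fun j => if B j i then ∏ l, (f l).wt (i l) else 0)
        (fun j' _ => by
          split_ifs
          · exact hnn i hi
          · exact le_rfl) (mem_range.2 hj)
    rwa [if_pos hBj] at h4
  refine hsum.trans ((sum_le_sum fun j _ => hone j).trans ?_)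
  rw [← mul_sum, ← mul_sum]
  have h5 := sum_sq M
  have h6 : (0 : ℝ) ≤ 1 / ((M : ℝ) + 1) := by positivity
  have h7 : 0 ≤ (X : ℝ) ^ (-(c / 2)) := by positivity
  have h8 : (X : ℝ) ^ (-(c / 2)) * ∑ j ∈ range (M + 1), 1 / ((j : ℝ) + 1) ^ 2 ≤ (X : ℝ) ^ (-(c / 2)) * 2 :=
    mul_le_mul_of_nonneg_left (by linarith) h7
  calc 1 / 2 * L * ((X : ℝ) ^ (-(c / 2)) * ∑ j ∈ range (M + 1), 1 / ((j : ℝ) + 1) ^ 2) ≤
        1 / 2 * L * ((X : ℝ) ^ (-(c / 2)) * 2) := mul_le_mul_of_nonneg_left h8 (by linarith)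
    _ = L * (X : ℝ) ^ (-(c / 2)) := by ring
    _ = _ := by rw [hL]

end Pool.Agent.T3h87.LT
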