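import Pool.Agent.T3h87.LT.Props

/-!
# Polynomial families of Weierstrass equations
-/

set_option autoImplicit false

namespace Pool.Agent.T3h87.LT

open Finset Filter

/-- The curve `E` over `ℤ[t₁, ..., t_D]`, for the values `t = m` of the parameters, modulo `p`. -/
noncomputable def reduced {D : ℕ} (E : WeierstrassCurve (MvPolynomial (Fin D) ℤ)) (p : ℕ) (m : Fin D → ℤ) :
    WeierstrassCurve (ZMod p) := (E.map (MvPolynomial.eval m)).map (Int.castRingHom (ZMod p))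

lemma reduced_congr {D : ℕ} (E : WeierstrassCurve (MvPolynomial (Fin D) ℤ)) (p : ℕ) (m m' : Fin D → ℤ)
    (h : ∀ l, (p : ℤ) ∣ m l - m' l) : reduced E p m = reduced E p m' := by
  unfold reduced
  rw [WeierstrassCurve.map_map, WeierstrassCurve.map_map]
  congr 1
  apply MvPolynomial.ringHom_ext
  · intro a
    simp
  · intro l
    simp only [RingHom.comp_apply, MvPolynomial.eval_X, eq_intCast]
    rw [← sub_eq_zero, ← Int.cast_sub, ZMod.intCast_zmod_eq_zero_iff_dvd]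
    exact h l

/-- the vector of the modulus, the residue class and the remaining data -/
def vec {n : ℕ} (q a : ℕ) (r : Fin n → ℤ) : Fin (n + 2) → ℤ := Fin.cons (q : ℤ) (Fin.cons ((a % q : ℕ) : ℤ) r)

lemma vec_le {n : ℕ} (q a : ℕ) (hq : 1 ≤ q) (r : Fin n → ℤ) (B : ℝ) (hqB : (q : ℝ) ≤ B) (hr : ∀ i, |(r i : ℝ)| ≤ B) :
    ∀ k, |((vec q a r k : ℤ) : ℝ)| ≤ B := by
  intro k
  unfold vec
  refine Fin.cases ?_ (fun k => ?_) k
  · rw [Fin.cons_zero, Int.cast_natCast, abs_of_nonneg (Nat.cast_nonneg _)]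
    exact hqB
  · rw [Fin.cons_succ]
    refine Fin.cases ?_ (fun k => ?_) k
    · rw [Fin.cons_zero, Int.cast_natCast, abs_of_nonneg (Nat.cast_nonneg _)]
      have : ((a % q : ℕ) : ℝ) ≤ q := by exact_mod_cast (Nat.mod_lt a (by omega)).le
      linarith
    · rw [Fin.cons_succ]
      exact hr k

/-- the property with a condition for the residue class of the prime -/
def cls {D n : ℕ} (T : (Fin n → ℤ) → ℕ → (Fin D → ℤ) → Prop) (u : Fin (n + 2) → ℤ) (p : ℕ) (m : Fin D → ℤ) : Prop :=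
  (p : ℤ) % u 0 = u 1 ∧ T (fun i => u i.succ.succ) p m

lemma cls_vec {D n : ℕ} (T : (Fin n → ℤ) → ℕ → (Fin D → ℤ) → Prop) (q a : ℕ) (r : Fin n → ℤ) (p : ℕ) (m : Fin D → ℤ) :
    cls T (vec q a r) p m ↔ p % q = a % q ∧ T r p m := by
  unfold cls vec
  have h1 : (Fin.cons (q : ℤ) (Fin.cons ((a % q : ℕ) : ℤ) r) : Fin (n + 2) → ℤ) 1 = ((a % q : ℕ) : ℤ) := by
    have : (1 : Fin (n + 2)) = (0 : Fin (n + 1)).succ := rfl
    rw [this, Fin.cons_succ, Fin.cons_zero]
  rw [h1]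
  simp only [Fin.cons_zero, Fin.cons_succ]
  constructor
  · rintro ⟨q1, q2⟩
    exact ⟨by exact_mod_cast q1, q2⟩
  · rintro ⟨q1, q2⟩
    exact ⟨by exact_mod_cast q1, q2⟩

end Pool.Agent.T3h87.LT
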