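import Mathlib

/-!
# An enumeration of the vectors of integers, small vectors first
-/

set_option autoImplicit false

namespace Pool.Agent.T3h87.LT

/-- the number of an integer -/
def zn (r : ℤ) : ℕ := if 0 ≤ r then 2 * r.natAbs else 2 * r.natAbs - 1

lemma zn_inj (r r' : ℤ) (h : zn r = zn r') : r = r' := by
  unfold zn at h
  split_ifs at h <;> omega

lemma zn_le (r : ℤ) : zn r ≤ 2 * r.natAbs := by
  unfold zn
  split_ifs <;> omega

/-- the number of a vector of integers -/
def enc : (n : ℕ) → (Fin n → ℤ) → ℕ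
  | 0, _ => 0
  | n + 1, r => Nat.pair (zn (r 0)) (enc n (fun i => r i.succ))

lemma enc_inj : ∀ (n : ℕ) (r r' : Fin n → ℤ), enc n r = enc n r' → r = r' := by
  intro n
  induction n with
  | zero => intro r r' _; exact funext fun i => i.elim0
  | succ n ih =>
    intro r r' h
    rw [enc, enc, Nat.pair_eq_pair] at h
    have h1 := zn_inj _ _ h.1
    have h2 := ih _ _ h.2
    funext i
    refine Fin.cases h1 (fun i => ?_) i
    exact congrFun h2 i

lemma enc_le : ∀ (n : ℕ) (r : Fin n → ℤ) (B : ℕ), (∀ i, (r i).natAbs ≤ B) → enc n r + 1 ≤ (2 * B + 1) ^ (2 ^ n) := by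
  intro n
  induction n with
  | zero => intro r B _; simp [enc]
  | succ n ih =>
    intro r B hB
    have h1 := ih (fun i => r i.succ) B (fun i => hB i.succ)
    have h2 := (zn_le (r 0)).trans (Nat.mul_le_mul_left 2 (hB 0))
    have h3 : 2 * B + 1 ≤ (2 * B + 1) ^ (2 ^ n) := Nat.le_self_pow (by positivity) _
    rw [enc]
    have h4 := Nat.pair_lt_max_add_one_sq (zn (r 0)) (enc n (fun i => r i.succ))
    refine (Nat.succ_le_of_lt h4).trans ?_
    have h5 : max (zn (r 0)) (enc n (fun i => r i.succ)) + 1 ≤ (2 * B + 1) ^ (2 ^ n) := by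
      rcases le_total (zn (r 0)) (enc n (fun i => r i.succ)) with h | h
      · rw [max_eq_right h]
        exact h1
      · rw [max_eq_left h]
        omega
    calc (max (zn (r 0)) (enc n (fun i => r i.succ)) + 1) ^ 2 ≤ ((2 * B + 1) ^ (2 ^ n)) ^ 2 := Nat.pow_le_pow_left h5 2
      _ = (2 * B + 1) ^ (2 ^ (n + 1)) := by rw [← pow_mul, pow_succ]

end Pool.Agent.T3h87.LT
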