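import Pool.Agent.N794.CG.Multi

/-!
# Counts of primes with a property which depends on several residues, error of the size of the square root of the mean

Adapted from `Pool.Agent.N794.CG.multi` (starting library), where the error is the square root of the number of all primes.
-/

set_option autoImplicit false

namespace Pool.Agent.T3h87.LT

open Finset Filter
open Pool.Agent.R459.Eq (Decays Sys Sysb Few pri mem_pri mean Vs Vs_le mean_sq_le mean_add')
open Pool.Agent.N794.CG (FineAt Avh meanD FS QF Mostly)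

/-- functions of several residues with values in `[0, 1]`, few of which are not zero -/
structure SysN {D : ℕ} (h : ℕ → ℕ → (Fin D → ℤ) → ℝ) : Prop where
  per : ∀ j p : ℕ, p.Prime → ∀ m m' : Fin D → ℤ, (∀ l, (p : ℤ) ∣ m l - m' l) → h j p m = h j p m'
  mem : ∀ j p : ℕ, p.Prime → ∀ m : Fin D → ℤ, 0 ≤ h j p m ∧ h j p m ≤ 1
  few : ∀ p : ℕ, p.Prime → ∀ m : Fin D → ℤ, ∀ M : ℕ, ∑ j ∈ range M, (h j p m) ^ 2 ≤ Nat.log 2 p + 3

lemma SysN.avh {D : ℕ} {h : ℕ → ℕ → (Fin (D + 1) → ℤ) → ℝ} (hh : SysN h) : SysN (Avh h) := by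
  refine ⟨?_, ?_, ?_⟩
  · intro j p hp m m' hm
    unfold Avh
    congr 1
    funext n
    apply hh.per j p hp
    intro l
    refine Fin.cases ?_ (fun l => ?_) l
    · simp
    · simpa using hm l
  · intro j p hp m
    have hp0 : (0 : ℝ) < p := by exact_mod_cast hp.pos
    unfold Avh mean
    constructor
    · exact div_nonneg (sum_nonneg fun t _ => (hh.mem j p hp _).1) hp0.le
    · rw [div_le_one hp0]
      refine (sum_le_card_nsmul (range p) (fun t : ℕ => h j p (Fin.cons (t : ℤ) m)) 1 fun t _ => (hh.mem j p hp _).2).trans ?_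
      simp
  · intro p hp m M
    have hp0 : (0 : ℝ) < p := by exact_mod_cast hp.pos
    calc ∑ j ∈ range M, (Avh h j p m) ^ 2 ≤ ∑ j ∈ range M, mean p (fun n => (h j p (Fin.cons n m)) ^ 2) :=
          sum_le_sum fun j _ => mean_sq_le p hp.one_le _
      _ = mean p (fun n => ∑ j ∈ range M, (h j p (Fin.cons n m)) ^ 2) := mean_add' _ _ _
      _ ≤ _ := by
          unfold mean
          rw [div_le_iff₀ hp0]
          refine (sum_le_card_nsmul (range p) (fun t : ℕ => ∑ j ∈ range M, h j p (Fin.cons (t : ℤ) m) ^ 2)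
            ((Nat.log 2 p : ℝ) + 3) fun t _ => ?_).trans ?_
          · exact hh.few p hp _ M
          · rw [card_range, nsmul_eq_mul, mul_comm]

/-- the system in the first variable -/
lemma SysN.fst {D : ℕ} {h : ℕ → ℕ → (Fin (D + 1) → ℤ) → ℝ} (hh : SysN h) (m : Fin D → ℤ) :
    (∀ j, Sysb (fun p n => h j p (Fin.cons n m))) ∧ Few (fun j p n => h j p (Fin.cons n m)) := by
  refine ⟨fun j => ⟨?_, ?_⟩, ?_⟩
  · intro p hp n n' hn
    apply hh.per j p hp
    intro l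
    refine Fin.cases ?_ (fun l => ?_) l
    · simpa using hn
    · simp
  · intro p hp n
    have := hh.mem j p hp (Fin.cons n m)
    rw [abs_le]
    constructor <;> linarith [this.1, this.2]
  · intro p hp n M
    exact hh.few p hp _ M

/-- the property of the index vectors which are counted -/
def BadN (δ : ℝ) (X : ℕ) (R : ℕ → Prop) (D : ℕ) (a b : ℕ → ℕ → ℝ) : Prop :=
  ∃ x : ℕ, X ≤ x ∧ R (2 ^ D * x) ∧ ∃ j : ℕ, (j : ℝ) ≤ (x : ℝ) ^ (δ / 2) ∧
    2 ^ (D ^ 2 + D) * (√(max 1 (∑ p ∈ pri (2 ^ D * x), b j p)) * (x : ℝ) ^ (D * δ)) < |∑ p ∈ pri x, (a j p - b j p)|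

/-- the exceptions in the first variable -/
def BadF (δ : ℝ) (X : ℕ) (R : ℕ → Prop) (a b : ℕ → ℕ → ℝ) : Prop :=
  ∃ x : ℕ, X ≤ x ∧ R x ∧ ∃ j : ℕ, (j : ℝ) ≤ (x : ℝ) ^ (δ / 2) ∧
    √(max 1 (∑ p ∈ pri (2 * x), b j p)) * (x : ℝ) ^ δ < |∑ p ∈ pri x, (a j p - b j p)|

lemma pri_sub {x y : ℕ} (h : x ≤ y) : pri x ⊆ pri y := by
  intro p hp
  rw [mem_pri] at hp ⊢
  exact ⟨hp.1.trans h, hp.2⟩

lemma meanD_nonneg (p : ℕ) : ∀ (D : ℕ) (f : (Fin D → ℤ) → ℝ), (∀ m, 0 ≤ f m) → 0 ≤ meanD p D f := by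
  intro D
  induction D with
  | zero => intro f hf; exact hf _
  | succ D ih =>
    intro f hf
    refine ih _ fun m => ?_
    unfold mean
    exact div_nonneg (sum_nonneg fun t _ => hf _) (Nat.cast_nonneg _)

/-- the inequalities -/
lemma chainN (D : ℕ) (K A y yD S0 S1 S1' M M2 M4 : ℝ) (hK : K = 2 ^ (D ^ 2 + D)) (hA : 1 ≤ A) (hy : 1 ≤ y) (hyD : 1 ≤ yD)
    (hM2 : M2 ≤ M4) (hM4 : M4 ≤ A ^ 2)
    (h1 : |S1 - M| ≤ K * (A * yD)) (h2 : |S1' - M2| ≤ K * (A * (2 ^ D * yD)))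
    (h0 : |S0 - S1| ≤ √(max 1 S1') * y) :
    |S0 - M| ≤ 2 ^ ((D + 1) ^ 2 + (D + 1)) * (A * (yD * y)) := by
  have hK1 : 1 ≤ K := by
    rw [hK]
    exact one_le_pow₀ (by norm_num)
  have h2D : (1 : ℝ) ≤ 2 ^ D := one_le_pow₀ (by norm_num)
  have hAA : A ≤ A ^ 2 := by nlinarith
  have e1 : S1' ≤ (1 + K * 2 ^ D) * (A ^ 2 * yD) := by
    have h3 := (abs_le.1 h2).2
    have h4 : A ^ 2 ≤ A ^ 2 * yD := le_mul_of_one_le_right (by positivity) hyD
    have h5 : K * (A * (2 ^ D * yD)) ≤ K * 2 ^ D * (A ^ 2 * yD) := by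
      have h6 : A * yD ≤ A ^ 2 * yD := mul_le_mul_of_nonneg_right hAA (by linarith)
      have h7 : K * 2 ^ D * (A * yD) ≤ K * 2 ^ D * (A ^ 2 * yD) := mul_le_mul_of_nonneg_left h6 (by positivity)
      calc K * (A * (2 ^ D * yD)) = K * 2 ^ D * (A * yD) := by ring
        _ ≤ _ := h7
    nlinarith
  have e2 : √(max 1 S1') ≤ (1 + K * 2 ^ D) * (A * yD) := by
    have hB : 1 ≤ 1 + K * 2 ^ D := by nlinarith
    have hAy : 1 ≤ A * yD := one_le_mul_of_one_le_of_one_le hA hyD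
    rw [Real.sqrt_le_left (by positivity)]
    apply max_le
    · have : 1 ≤ (1 + K * 2 ^ D) * (A * yD) := one_le_mul_of_one_le_of_one_le hB hAy
      nlinarith
    · refine e1.trans ?_
      have h3 : (1 + K * 2 ^ D) ≤ (1 + K * 2 ^ D) ^ 2 := by nlinarith
      have h4 : A ^ 2 * yD ≤ (A * yD) ^ 2 := by
        have : yD ≤ yD ^ 2 := by nlinarith
        calc A ^ 2 * yD ≤ A ^ 2 * yD ^ 2 := mul_le_mul_of_nonneg_left this (by positivity)
          _ = _ := by ring
      calc (1 + K * 2 ^ D) * (A ^ 2 * yD) ≤ (1 + K * 2 ^ D) ^ 2 * (A * yD) ^ 2 :=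
            mul_le_mul h3 h4 (by positivity) (by positivity)
        _ = _ := by ring
  have e3 : |S0 - M| ≤ |S0 - S1| + |S1 - M| := abs_sub_le _ _ _
  have e4 : √(max 1 S1') * y ≤ (1 + K * 2 ^ D) * (A * yD) * y := mul_le_mul_of_nonneg_right e2 (by linarith)
  have e5 : K * (A * yD) ≤ K * (A * yD) * y := le_mul_of_one_le_right (by positivity) hy
  have e6 : |S0 - M| ≤ (1 + K * 2 ^ D + K) * (A * (yD * y)) := by
    calc |S0 - M| ≤ (1 + K * 2 ^ D) * (A * yD) * y + K * (A * yD) * y := by linarith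
      _ = _ := by ring
  refine e6.trans (mul_le_mul_of_nonneg_right ?_ (by positivity))
  rw [hK]
  have f1 : (2 : ℝ) ^ ((D + 1) ^ 2 + (D + 1)) = 4 * (2 ^ (D ^ 2 + D) * 2 ^ D * 2 ^ D) := by
    have : (D + 1) ^ 2 + (D + 1) = (D ^ 2 + D) + D + D + 2 := by ring
    rw [this, pow_add, pow_add, pow_add]
    ring
  rw [f1]
  have f2 : (1 : ℝ) ≤ 2 ^ (D ^ 2 + D) := one_le_pow₀ (by norm_num)
  have f3 : (2 : ℝ) ^ (D ^ 2 + D) * 2 ^ D ≤ 2 ^ (D ^ 2 + D) * 2 ^ D * 2 ^ D := le_mul_of_one_le_right (by positivity) h2D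
  have f4 : (2 : ℝ) ^ (D ^ 2 + D) ≤ 2 ^ (D ^ 2 + D) * 2 ^ D := le_mul_of_one_le_right (by positivity) h2D
  linarith

/-- **several parameters** -/
theorem multiN (δ : ℝ) (hδ : 0 < δ) (hδ1 : δ ≤ 1) (X : ℕ) (hX : 1 ≤ X) (R : ℕ → Prop) (hR : ∀ x y : ℕ, x ≤ y → R y → R x) :
    ∀ (D : ℕ) (ι : Fin D → Type) (Ω : ∀ l, Finset (ι l)) (w : ∀ l, ι l → ℝ) (v : ∀ l, ι l → ℤ) (τ : Fin D → ℝ),
    (∀ l, 0 ≤ τ l) → (∀ l, ∀ i ∈ Ω l, 0 ≤ w l i) → (∀ l, ∑ i ∈ Ω l, w l i ≤ 1) →
    (∀ l, FineAt δ X R (τ l) (Ω l) (w l) (v l)) →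
    ∀ h : ℕ → ℕ → (Fin D → ℤ) → ℝ, SysN h → ∀ E : Finset (∀ l, ι l), E ⊆ Fintype.piFinset Ω →
    (∀ i ∈ E, BadN δ X R D (fun j p => h j p (fun l => v l (i l))) (fun j p => meanD p D (h j p))) →
    ∑ i ∈ E, ∏ l, w l (i l) ≤ ∑ l, τ l := by
  classical
  intro D
  induction D with
  | zero =>
    intro ι Ω w v τ _ _ _ _ h _ E _ hbad
    have hE : E = ∅ := by
      rw [eq_empty_iff_forall_notMem]
      intro i hi
      obtain ⟨x, _, _, j, _, hlt⟩ := hbad i hi
      have h1 : ∀ p, h j p (fun l => v l (i l)) - meanD p 0 (h j p) = 0 := by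
        intro p
        have e : (fun l => v l (i l)) = (fun i : Fin 0 => (i.elim0 : ℤ)) := funext fun l => l.elim0
        rw [e, meanD, sub_self]
      simp only [h1, sum_const_zero, abs_zero] at hlt
      have : 0 ≤ (2 : ℝ) ^ (0 ^ 2 + 0) * (√(max 1 (∑ p ∈ pri (2 ^ 0 * x), meanD p 0 (h j p))) * (x : ℝ) ^ (((0 : ℕ) : ℝ) * δ)) := by
        positivity
      linarith
    rw [hE, sum_empty]
    simp
  | succ D ih =>
    intro ι Ω w v τ hτ hw hw1 hfine h hh E hE hbad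
    have hE' : ∀ i ∈ E, ∀ l, i l ∈ Ω l := fun i hi => Fintype.mem_piFinset.1 (hE hi)
    -- the tails
    obtain ⟨tl, htl⟩ : ∃ tl : (∀ l, ι l) → (∀ l : Fin D, ι l.succ), tl = fun i l => i l.succ := ⟨_, rfl⟩
    obtain ⟨Ω', hΩ'⟩ : ∃ Ω' : Finset (∀ l : Fin D, ι l.succ), Ω' = Fintype.piFinset (fun l : Fin D => Ω l.succ) := ⟨_, rfl⟩
    obtain ⟨w', hw'⟩ : ∃ w' : (∀ l : Fin D, ι l.succ) → ℝ, w' = fun i => ∏ l, w l.succ (i l) := ⟨_, rfl⟩
    have htl' : ∀ i ∈ E, tl i ∈ Ω' := by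
      intro i hi
      rw [hΩ', htl, Fintype.mem_piFinset]
      exact fun l => hE' i hi l.succ
    have hw'0 : ∀ i ∈ Ω', 0 ≤ w' i := by
      intro i hi
      rw [hΩ', Fintype.mem_piFinset] at hi
      rw [hw']
      exact prod_nonneg fun l _ => hw l.succ _ (hi l)
    have hw'1 : ∑ i ∈ Ω', w' i ≤ 1 := by
      rw [hΩ', hw', ← prod_univ_sum (fun l : Fin D => Ω l.succ) (fun l i => w l.succ i)]
      exact prod_le_one (fun l _ => sum_nonneg fun i hi => hw l.succ i hi) fun l _ => hw1 l.succ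
    have hprod : ∀ i : (∀ l, ι l), ∏ l, w l (i l) = w 0 (i 0) * w' (tl i) := by
      intro i
      rw [Fin.prod_univ_succ, hw', htl]
    have hvec : ∀ i : (∀ l, ι l), (fun l => v l (i l)) =
        Fin.cons (v 0 (i 0)) (fun l : Fin D => v l.succ (tl i l)) := by
      intro i
      funext l
      refine Fin.cases ?_ (fun l => ?_) l
      · simp
      · simp [htl]
    -- grouping by the tails
    have hgroup : ∀ G : Finset (∀ l, ι l), G ⊆ E → ∀ c : ℝ,
        (∀ i' ∈ Ω', i' ∈ G.image tl → ∑ i ∈ G.filter (fun i => tl i = i'), w 0 (i 0) ≤ c) →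
        ∑ i ∈ G, ∏ l, w l (i l) ≤ ∑ i' ∈ G.image tl, w' i' * c := by
      intro G hG c hc
      rw [← sum_fiberwise_of_maps_to (g := tl) (t := G.image tl) (fun i hi => mem_image_of_mem tl hi)]
      apply sum_le_sum
      intro i' hi'
      obtain ⟨i, hi, hii⟩ := mem_image.1 hi'
      have hi'Ω : i' ∈ Ω' := by
        rw [← hii]
        exact htl' i (hG hi)
      calc ∑ i ∈ G.filter (fun i => tl i = i'), ∏ l, w l (i l) = ∑ i ∈ G.filter (fun i => tl i = i'), w' i' * w 0 (i 0) := by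
            apply sum_congr rfl
            intro i hi
            rw [hprod i, (mem_filter.1 hi).2, mul_comm]
        _ = w' i' * ∑ i ∈ G.filter (fun i => tl i = i'), w 0 (i 0) := (mul_sum _ _ _).symm
        _ ≤ w' i' * c := mul_le_mul_of_nonneg_left (hc i' hi'Ω hi') (hw'0 i' hi'Ω)
    -- the fibres
    have hfib : ∀ (G : Finset (∀ l, ι l)), G ⊆ E → ∀ i' : (∀ l : Fin D, ι l.succ),
        ∑ i ∈ G.filter (fun i => tl i = i'), w 0 (i 0) = ∑ z ∈ (G.filter (fun i => tl i = i')).image (fun i => i 0), w 0 z := by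
      intro G hG i'
      rw [sum_image]
      intro i hi i₂ hi₂ h0
      rw [mem_coe, mem_filter] at hi hi₂
      funext l
      refine Fin.cases h0 (fun l => ?_) l
      have h1 := congrFun (hi.2.trans hi₂.2.symm) l
      rw [htl] at h1
      exact h1
    -- the two kinds of exceptions
    obtain ⟨E₁, hE₁⟩ : ∃ E₁, E₁ = E.filter (fun i => BadF δ X R (fun j p => h j p (fun l => v l (i l)))
      (fun j p => Avh h j p (fun l : Fin D => v l.succ (tl i l)))) := ⟨_, rfl⟩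
    obtain ⟨E₂, hE₂⟩ : ∃ E₂, E₂ = E.filter (fun i => BadN δ X R D (fun j p => Avh h j p (fun l : Fin D => v l.succ (tl i l)))
      (fun j p => meanD p D (Avh h j p))) := ⟨_, rfl⟩
    have hE₁E : E₁ ⊆ E := by rw [hE₁]; exact filter_subset _ _
    have hE₂E : E₂ ⊆ E := by rw [hE₂]; exact filter_subset _ _
    have hsplit : E ⊆ E₁ ∪ E₂ := by
      intro i hi
      rw [mem_union]
      by_contra hcon
      push Not at hcon
      obtain ⟨c1, c2⟩ := hcon
      obtain ⟨x, hXx, hxW, j, hj, hlt⟩ := hbad i hi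
      have hx1 : 1 ≤ x := hX.trans hXx
      have hxr : (1 : ℝ) ≤ x := by exact_mod_cast hx1
      have hxp : (0 : ℝ) < x := by linarith
      have hmono : ∀ {y z : ℕ}, y ≤ z → ∑ p ∈ pri y, meanD p D (Avh h j p) ≤ ∑ p ∈ pri z, meanD p D (Avh h j p) := by
        intro y z hyz
        refine sum_le_sum_of_subset_of_nonneg (pri_sub hyz) fun p hp _ => ?_
        refine meanD_nonneg p D _ fun m => ?_
        exact (hh.avh.mem j p (mem_pri.1 hp).2 m).1
      obtain ⟨A, hA⟩ : ∃ A : ℝ, A = √(max 1 (∑ p ∈ pri (2 ^ (D + 1) * x), meanD p D (Avh h j p))) := ⟨_, rfl⟩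
      have hA1 : 1 ≤ A := by
        rw [hA, Real.one_le_sqrt]
        exact le_max_left _ _
      have hAA : A ^ 2 = max 1 (∑ p ∈ pri (2 ^ (D + 1) * x), meanD p D (Avh h j p)) := by
        rw [hA]
        exact Real.sq_sqrt (le_trans zero_le_one (le_max_left _ _))
      have hpow : 2 ^ (D + 1) * x = 2 ^ D * (2 * x) := by rw [pow_succ]; ring
      have h2D1 : 1 ≤ 2 ^ D := Nat.one_le_two_pow
      have r1 : R (2 ^ D * x) := hR _ _ (by rw [hpow]; exact Nat.mul_le_mul_left _ (by omega)) hxW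
      have r2 : R (2 ^ D * (2 * x)) := by rw [← hpow]; exact hxW
      have r0 : R x := hR _ _ (Nat.le_mul_of_pos_left _ (by positivity)) hxW
      have b1 : |∑ p ∈ pri x, (h j p (fun l => v l (i l)) - Avh h j p (fun l : Fin D => v l.succ (tl i l)))| ≤
          √(max 1 (∑ p ∈ pri (2 * x), Avh h j p (fun l : Fin D => v l.succ (tl i l)))) * (x : ℝ) ^ δ := by
        by_contra h5
        push Not at h5
        exact c1 (by rw [hE₁, mem_filter]; exact ⟨hi, x, hXx, r0, j, hj, h5⟩)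
      have b2 : ∀ y : ℕ, X ≤ y → R (2 ^ D * y) → (j : ℝ) ≤ (y : ℝ) ^ (δ / 2) →
          |∑ p ∈ pri y, (Avh h j p (fun l : Fin D => v l.succ (tl i l)) - meanD p D (Avh h j p))| ≤
          2 ^ (D ^ 2 + D) * (√(max 1 (∑ p ∈ pri (2 ^ D * y), meanD p D (Avh h j p))) * (y : ℝ) ^ (D * δ)) := by
        intro y hy1 hy2 hy3
        by_contra h5
        push Not at h5
        exact c2 (by rw [hE₂, mem_filter]; exact ⟨hi, y, hy1, hy2, j, hy3, h5⟩)
      have hj2 : (j : ℝ) ≤ ((2 * x : ℕ) : ℝ) ^ (δ / 2) := by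
        refine hj.trans (Real.rpow_le_rpow hxp.le ?_ (by linarith))
        push_cast
        linarith
      have b3 := b2 x hXx r1 hj
      have b4 := b2 (2 * x) (by omega) r2 hj2
      have hyD : (1 : ℝ) ≤ (x : ℝ) ^ ((D : ℝ) * δ) := Real.one_le_rpow hxr (by positivity)
      have hy : (1 : ℝ) ≤ (x : ℝ) ^ δ := Real.one_le_rpow hxr hδ.le
      have h2x : ((2 * x : ℕ) : ℝ) ^ ((D : ℝ) * δ) ≤ 2 ^ D * (x : ℝ) ^ ((D : ℝ) * δ) := by
        push_cast
        rw [Real.mul_rpow (by norm_num) hxp.le]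
        apply mul_le_mul_of_nonneg_right _ (by positivity)
        calc (2 : ℝ) ^ ((D : ℝ) * δ) ≤ 2 ^ (D : ℝ) := Real.rpow_le_rpow_of_exponent_le (by norm_num) (by nlinarith [Nat.cast_nonneg (α := ℝ) D])
          _ = 2 ^ D := Real.rpow_natCast 2 D
      have b5 : |∑ p ∈ pri x, Avh h j p (fun l : Fin D => v l.succ (tl i l)) - ∑ p ∈ pri x, meanD p D (Avh h j p)| ≤
          2 ^ (D ^ 2 + D) * (A * (x : ℝ) ^ ((D : ℝ) * δ)) := by
        rw [← sum_sub_distrib]
        refine b3.trans ?_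
        apply mul_le_mul_of_nonneg_left _ (by positivity)
        apply mul_le_mul_of_nonneg_right _ (by positivity)
        rw [hA]
        apply Real.sqrt_le_sqrt
        apply max_le_max le_rfl
        exact hmono (by rw [hpow]; exact Nat.mul_le_mul_left _ (by omega))
      have b6 : |∑ p ∈ pri (2 * x), Avh h j p (fun l : Fin D => v l.succ (tl i l)) - ∑ p ∈ pri (2 * x), meanD p D (Avh h j p)| ≤
          2 ^ (D ^ 2 + D) * (A * (2 ^ D * (x : ℝ) ^ ((D : ℝ) * δ))) := by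
        rw [← sum_sub_distrib]
        refine b4.trans ?_
        apply mul_le_mul_of_nonneg_left _ (by positivity)
        rw [hA, hpow]
        apply mul_le_mul_of_nonneg_left h2x (by positivity)
      have b7 := chainN D _ A ((x : ℝ) ^ δ) ((x : ℝ) ^ ((D : ℝ) * δ)) (∑ p ∈ pri x, h j p (fun l => v l (i l)))
        (∑ p ∈ pri x, Avh h j p (fun l : Fin D => v l.succ (tl i l)))
        (∑ p ∈ pri (2 * x), Avh h j p (fun l : Fin D => v l.succ (tl i l)))
        (∑ p ∈ pri x, meanD p D (Avh h j p)) (∑ p ∈ pri (2 * x), meanD p D (Avh h j p))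
        (∑ p ∈ pri (2 ^ (D + 1) * x), meanD p D (Avh h j p)) rfl hA1 hy hyD
        (hmono (by rw [hpow]; exact Nat.le_mul_of_pos_left _ (by positivity)))
        (by rw [hAA]; exact le_max_right _ _) b5 b6 (by rw [← sum_sub_distrib]; exact b1)
      have e1 : ∀ p, meanD p (D + 1) (h j p) = meanD p D (Avh h j p) := fun p => rfl
      have e2 : (x : ℝ) ^ (((D + 1 : ℕ) : ℝ) * δ) = (x : ℝ) ^ ((D : ℝ) * δ) * (x : ℝ) ^ δ := by
        rw [← Real.rpow_add hxp]
        congr 1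
        push_cast
        ring
      simp only [e1] at hlt
      rw [e2, ← hA, sum_sub_distrib] at hlt
      exact absurd b7 (not_le.2 hlt)
    -- the sum over the first kind
    have k1 : ∑ i ∈ E₁, ∏ l, w l (i l) ≤ τ 0 := by
      refine (hgroup E₁ hE₁E (τ 0) fun i' hi' _ => ?_).trans ?_
      · rw [hfib E₁ hE₁E i']
        obtain ⟨m, hm⟩ : ∃ m : Fin D → ℤ, m = fun l => v l.succ (i' l) := ⟨_, rfl⟩
        obtain ⟨s1, s2⟩ := hh.fst m
        refine hfine 0 ⟨fun j p n => h j p (Fin.cons n m), s1, s2⟩ _ ?_ ?_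
        · intro z hz
          obtain ⟨i, hi, hiz⟩ := mem_image.1 hz
          rw [← hiz]
          exact hE' i (hE₁E (mem_filter.1 hi).1) 0
        · intro z hz hall
          obtain ⟨i, hi, hiz⟩ := mem_image.1 hz
          obtain ⟨hi1, hi2⟩ := mem_filter.1 hi
          rw [hE₁, mem_filter] at hi1
          obtain ⟨_, x, hXx, hxW, j, hj, hlt⟩ := hi1
          have h6 := (hall x hXx hxW).2 j hj
          rw [hvec i] at hlt
          simp only [hi2, ← hm] at hlt
          rw [← hiz] at h6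
          have h7 : √(max 1 (Vs ((⟨fun j p n => h j p (Fin.cons n m), s1, s2⟩ : FS).1 j) (2 * x))) * (x : ℝ) ^ δ ≤
              √(max 1 (∑ p ∈ pri (2 * x), Avh h j p m)) * (x : ℝ) ^ δ := by
            apply mul_le_mul_of_nonneg_right _ (by positivity)
            apply Real.sqrt_le_sqrt
            apply max_le_max le_rfl
            exact Vs_le (fun p n => h j p (Fin.cons n m)) (fun p hp n => hh.mem j p hp _) _
          exact absurd (h6.trans h7) (not_le.2 hlt)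
      · rw [← sum_mul]
        have h8 : ∑ i' ∈ E₁.image tl, w' i' ≤ 1 := by
          refine (sum_le_sum_of_subset_of_nonneg ?_ fun i hi _ => hw'0 i hi).trans hw'1
          intro i' hi'
          obtain ⟨i, hi, hii⟩ := mem_image.1 hi'
          rw [← hii]
          exact htl' i (hE₁E hi)
        calc _ ≤ 1 * τ 0 := mul_le_mul_of_nonneg_right h8 (hτ 0)
          _ = τ 0 := one_mul _
    -- the sum over the second kind
    have k2 : ∑ i ∈ E₂, ∏ l, w l (i l) ≤ ∑ l : Fin D, τ l.succ := by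
      refine (hgroup E₂ hE₂E 1 fun i' hi' _ => ?_).trans ?_
      · rw [hfib E₂ hE₂E i']
        refine (sum_le_sum_of_subset_of_nonneg ?_ fun i hi _ => hw 0 i hi).trans (hw1 0)
        intro z hz
        obtain ⟨i, hi, hiz⟩ := mem_image.1 hz
        rw [← hiz]
        exact hE' i (hE₂E (mem_filter.1 hi).1) 0
      · simp only [mul_one]
        rw [hw']
        refine ih (fun l => ι l.succ) (fun l => Ω l.succ) (fun l => w l.succ) (fun l => v l.succ) (fun l => τ l.succ)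
          (fun l => hτ l.succ) (fun l => hw l.succ) (fun l => hw1 l.succ) (fun l => hfine l.succ) (Avh h) hh.avh
          (E₂.image tl) ?_ ?_
        · intro i' hi'
          obtain ⟨i, hi, hii⟩ := mem_image.1 hi'
          rw [← hii, ← hΩ']
          exact htl' i (hE₂E hi)
        · intro i' hi'
          obtain ⟨i, hi, hii⟩ := mem_image.1 hi'
          rw [hE₂, mem_filter] at hi
          rw [← hii]
          exact hi.2
    have hnn : ∀ i ∈ E, 0 ≤ ∏ l, w l (i l) := fun i hi => prod_nonneg fun l _ => hw l _ (hE' i hi l)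
    have hsum : ∑ i ∈ E, ∏ l, w l (i l) ≤ ∑ i ∈ E₁, ∏ l, w l (i l) + ∑ i ∈ E₂, ∏ l, w l (i l) := by
      calc ∑ i ∈ E, ∏ l, w l (i l) ≤ ∑ i ∈ E₁ ∪ E₂, ∏ l, w l (i l) :=
            sum_le_sum_of_subset_of_nonneg hsplit fun i hi _ => hnn i ((union_subset hE₁E hE₂E) hi)
        _ ≤ ∑ i ∈ E₁ ∪ E₂, ∏ l, w l (i l) + ∑ i ∈ E₁ ∩ E₂, ∏ l, w l (i l) := by
            have : 0 ≤ ∑ i ∈ E₁ ∩ E₂, ∏ l, w l (i l) := sum_nonneg fun i hi => hnn i (hE₁E (mem_inter.1 hi).1)
            linarith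
        _ = _ := sum_union_inter
    rw [Fin.sum_univ_succ]
    linarith

end Pool.Agent.T3h87.LT
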