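import Pool.Agent.T3h87.LT.Eng
import Pool.Agent.N193.PS.Gp

/-!
# Six kinds of sparse families of integers

The parameters of the theorems on polynomial families are independent members of such families.
-/

set_option autoImplicit false

namespace Pool.Agent.T3h87.LT

open Finset Filter
open Pool.Agent.N794.CG (FineAt Avh meanD FS QF Mostly Eng eng_fine eng_flex eng_aut eng_res eng_sv eng_dig)

/-- A random integer: it takes the value `val i` with the probability `wt i`, for `i ∈ set`; `size` says how large it is. -/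
structure Fam where
  /-- the type of the indices -/
  ι : Type
  /-- the set of the indices -/
  set : Finset ι
  /-- the weights -/
  wt : ι → ℝ
  /-- the values -/
  val : ι → ℤ
  /-- the size -/
  size : ℝ

open Classical in
/-- the integers below `N` which are accepted by the automaton `M` (it reads the digits in base `b`) -/
noncomputable def accepted (b : ℕ) {σ : Type} (M : DFA ℕ σ) (N : ℕ) : Finset ℕ :=
  (range N).filter (fun v => Nat.digits b v ∈ M.accepts)

/-- The probability, for the distribution `μ` on the words of `k` digits (the integers `v < b ^ k`), that the word begins with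
the `i` digits of `u < b ^ i`. -/
noncomputable def begins (b k : ℕ) (μ : ℕ → ℝ) (i u : ℕ) : ℝ := ∑ w ∈ range (b ^ (k - i)), μ (u * b ^ (k - i) + w)

/-- `p` is a probability on the words of `k` digits in base `b`, read as integers `v < b ^ k`. There is another probability
`μ` with `p ≤ k ^ T μ` such that after every beginning `u` two different blocks `a`, `a'` of `L` digits can be exchanged:
`p (u a w) = r p (u a' w)` for all endings `w`, with a factor `r` between `η` and `1 / η` which does not depend on `w`; and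
given the beginning `u`, each of the two blocks comes next with a probability of at least `η` in the distribution `μ`. -/
structure Exchangeable (b L : ℕ) (η : ℝ) (T k : ℕ) (p : ℕ → ℝ) : Prop where
  nonneg : ∀ v, 0 ≤ p v
  sum : ∑ v ∈ range (b ^ k), p v = 1
  dominated : ∃ μ : ℕ → ℝ, (∀ v, 0 ≤ μ v) ∧ ∑ v ∈ range (b ^ k), μ v = 1 ∧ (∀ v < b ^ k, p v ≤ (k : ℝ) ^ T * μ v) ∧
    ∀ i u : ℕ, i + L ≤ k → u < b ^ i → ∃ (a a' : ℕ) (r : ℝ), a < a' ∧ a' < b ^ L ∧ η ≤ r ∧ η * r ≤ 1 ∧
      (∀ w < b ^ (k - (i + L)), p ((b ^ L * u + a) * b ^ (k - (i + L)) + w) = r * p ((b ^ L * u + a') * b ^ (k - (i + L)) + w)) ∧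
      η * begins b k μ i u ≤ begins b k μ (i + L) (b ^ L * u + a) ∧
      η * begins b k μ i u ≤ begins b k μ (i + L) (b ^ L * u + a')

open Classical in
/-- The digits `d i < b`, `i < k`, none of which is taken at more than `(1 - η) k` places. -/
def Spread (b k : ℕ) (η : ℝ) (d : Fin k → ℕ) : Prop :=
  (∀ i, d i < b) ∧ ∀ a, ((univ.filter fun i => d i = a).card : ℝ) ≤ (1 - η) * k

open Classical in
/-- The palindromes with exactly `k` digits in base `b`. -/
noncomputable def palindromes (b k : ℕ) : Finset ℕ :=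
  (range (b ^ k)).filter (fun v => b ^ (k - 1) ≤ v ∧ ∀ j < k, v / b ^ j % b = v / b ^ (k - 1 - j) % b)

/-- The Fourier coefficients of the residues `y i`, `i ∈ s`, modulo `q` at the nonzero frequencies are at most
`η` times the number of the residues: `|∑ i ∈ s, e(h y_i / q)| ≤ η |s|` for all `h ≠ 0` modulo `q`. -/
def Flat {ι : Type} (q : ℕ) [NeZero q] (η : ℝ) (s : Finset ι) (y : ι → ZMod q) : Prop :=
  ∀ h : ZMod q, h ≠ 0 → ‖∑ i ∈ s, (ZMod.stdAddChar (h * y i) : ℂ)‖ ≤ η * s.card

/-- `f` is smoothly varying of index `c`: it is infinitely differentiable and positive for large arguments, and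
`t ^ m f⁽ᵐ⁾(t) / f(t) → c (c - 1) ... (c - m + 1)` for every `m`. -/
def SmoothlyVarying (c : ℝ) (f : ℝ → ℝ) : Prop :=
  (∃ t₀ : ℝ, ∀ t > t₀, ContDiffAt ℝ ((⊤ : ℕ∞) : WithTop ℕ∞) f t ∧ 0 < f t) ∧
  ∀ m : ℕ, Tendsto (fun t => t ^ m * iteratedDeriv m f t / f t) atTop (nhds (∏ i ∈ range m, (c - i)))

/-- The six kinds of families. Each kind depends on some fixed data; the factor `κ` is fixed too, and the members of the
kind have the values `c + κ v` with an arbitrary shift `c`.
* `automatic`: `v` is one of the members below `N` of an automatic set, with equal probabilities; the size is `N`. The set has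
  more than `(log N) ^ j` members below `N` for infinitely many `N`, for every `j`.
* `exchangeable`: `v < b ^ k` is random, and blocks of digits can be exchanged; the size is `b ^ k`. (For example the
  integers with digits `a_i ∈ D_i`, where `D_i` are arbitrary sets of at least two digits.)
* `rearranged`: `v` has the digits `d`, in a random order; the size is `b ^ k`.
* `palindromic`: `v` is one of the palindromes with exactly `k` digits, with equal probabilities; the size is `b ^ k`.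
* `residues`: `v` is the least nonnegative representative of one of the residues `y i` modulo `q`, `i ∈ u`, all with equal
  probabilities, where the normalized Fourier coefficients at the nonzero frequencies are at most
  `1 / (Z (42 + 3 log q))`; the size is `Z`.
* `nonintegral`: `v = ⌊g n⌋`, where `1 ≤ n ≤ M` has the uniform distribution and `g` is smoothly varying of an index which is
  positive and not an integer; the size is `g M`. -/
inductive Kind : (ℤ → Set Fam) → Prop
  | automatic (b : ℕ) (hb : 2 ≤ b) (σ : Type) (hσ : Finite σ) (M : DFA ℕ σ)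
      (hM : ∀ j : ℕ, ∃ᶠ N : ℕ in atTop, Real.log N ^ j < ((accepted b M N).card : ℝ)) :
      Kind (fun κ => {f | ∃ (N : ℕ) (c : ℤ), f = ⟨ℕ, accepted b M N, fun _ => 1 / ((accepted b M N).card : ℝ),
        fun v => c + κ * (v : ℕ), N⟩})
  | exchangeable (b L : ℕ) (hb : 2 ≤ b) (hL : 1 ≤ L) (η : ℝ) (hη : 0 < η) (hη1 : η ≤ 1) (T : ℕ) :
      Kind (fun κ => {f | ∃ (k : ℕ) (p : ℕ → ℝ) (c : ℤ), Exchangeable b L η T k p ∧
        f = ⟨ℕ, range (b ^ k), p, fun v => c + κ * (v : ℕ), (b : ℝ) ^ k⟩})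
  | rearranged (b : ℕ) (hb : 2 ≤ b) (η : ℝ) (hη : 0 < η) :
      Kind (fun κ => {f | ∃ (k : ℕ) (d : Fin k → ℕ) (c : ℤ), 2 ≤ k ∧ Spread b k η d ∧
        f = ⟨Equiv.Perm (Fin k), univ, fun _ => 1 / (k.factorial : ℝ),
          fun σ => c + κ * ((∑ i : Fin k, d (σ i) * b ^ (i : ℕ) : ℕ) : ℤ), (b : ℝ) ^ k⟩})
  | palindromic (b : ℕ) (hb : 2 ≤ b) :
      Kind (fun κ => {f | ∃ (k : ℕ) (c : ℤ), 2 ≤ k ∧
        f = ⟨ℕ, palindromes b k, fun _ => 1 / ((palindromes b k).card : ℝ), fun v => c + κ * (v : ℕ), (b : ℝ) ^ k⟩})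
  | residues : Kind (fun κ => {f | ∃ (ι : Type) (q : ℕ) (_ : NeZero q) (u : Finset ι) (y : ι → ZMod q) (Z : ℝ) (c : ℤ),
      0 < Z ∧ Z ≤ q ∧ Flat q (1 / (Z * (42 + 3 * Real.log q))) u y ∧
        f = ⟨ι, u, fun _ => 1 / (u.card : ℝ), fun i => c + κ * ((y i).val : ℕ), Z⟩})
  | nonintegral (t : ℝ) (g : ℝ → ℝ) (ht : 0 < t) (hn : ∀ m : ℕ, t ≠ m) (hg : SmoothlyVarying t g) :
      Kind (fun κ => {f | ∃ (M : ℕ) (c : ℤ), f = ⟨ℕ, Icc 1 M, fun _ => 1 / (M : ℝ), fun n => c + κ * (⌊g n⌋₊ : ℕ), g M⟩})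

lemma begins_sum (b k : ℕ) (μ : ℕ → ℝ) (i u : ℕ) (hi : i < k) :
    ∑ a ∈ range b, begins b k μ (i + 1) (b * u + a) = begins b k μ i u := by
  unfold begins
  obtain ⟨n, hn⟩ : ∃ n, k - i = n + 1 := ⟨k - i - 1, by omega⟩
  have h1 : k - (i + 1) = n := by omega
  rw [h1, hn, pow_succ, mul_comm (b ^ n) b, Pool.Agent.N625.PT.sum_blocks b (b ^ n)]
  apply sum_congr rfl
  intro a _
  apply sum_congr rfl
  intro w _
  congr 1
  ring

lemma flex_of {b L T k : ℕ} {η : ℝ} {p : ℕ → ℝ} (hp : Exchangeable b L η T k p) : Pool.Agent.N625.PT.Flex b L η T k p := by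
  obtain ⟨h0, h1, μ, m0, m1, m2, m3⟩ := hp
  have hT : (0 : ℝ) ≤ (k : ℝ) ^ T := by positivity
  have hb0 : ∀ i u, 0 ≤ begins b k μ i u := fun i u => sum_nonneg fun w _ => m0 _
  refine ⟨h0, h1, fun i u => (k : ℝ) ^ T * begins b k μ i u, fun i u => mul_nonneg hT (hb0 i u), ?_, ?_, ?_, ?_⟩
  · intro v hv
    refine (m2 v hv).trans (le_of_eq ?_)
    unfold begins
    simp
  · intro i hi u _
    simp only
    rw [← mul_sum, begins_sum b k μ i u hi]
  · simp only
    have : begins b k μ 0 0 = 1 := by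
      unfold begins
      simpa using m1
    rw [this, mul_one]
  · intro i u hi hu
    obtain ⟨a, a', r, q1, q2, q3, q4, q5, q6, q7⟩ := m3 i u hi hu
    refine ⟨a, a', r, q1, q2, q3, q4, q5, ?_, ?_⟩
    · simp only
      calc η * ((k : ℝ) ^ T * begins b k μ i u) = (k : ℝ) ^ T * (η * begins b k μ i u) := by ring
        _ ≤ _ := mul_le_mul_of_nonneg_left q6 hT
    · simp only
      calc η * ((k : ℝ) ^ T * begins b k μ i u) = (k : ℝ) ^ T * (η * begins b k μ i u) := by ring
        _ ≤ _ := mul_le_mul_of_nonneg_left q7 hT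

/-- the factor lost in the proportion of the exceptions -/
noncomputable def loss (f : Fam) (e : ℕ) : ℝ := (1 + |Real.log f.size|) ^ e

lemma one_le_loss (f : Fam) (e : ℕ) : 1 ≤ loss f e := one_le_pow₀ (by linarith [abs_nonneg (Real.log f.size)])

lemma card_one {ι : Type} (u : Finset ι) : ∑ _i ∈ u, 1 / (u.card : ℝ) ≤ 1 := by
  rw [sum_const, nsmul_eq_mul, mul_one_div]
  exact div_self_le_one _

lemma pow_loss (b k T : ℕ) (hb : 2 ≤ b) : (k : ℝ) ^ T ≤ (1 + |Real.log ((b : ℝ) ^ k)|) ^ (2 * T) := by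
  rw [pow_mul]
  apply pow_le_pow_left₀ (Nat.cast_nonneg _)
  have hb2 : (2 : ℝ) ≤ b := by exact_mod_cast hb
  have h1 := Real.log_two_gt_d9
  have h2 : Real.log 2 ≤ Real.log b := Real.log_le_log (by norm_num) hb2
  have hk : (0 : ℝ) ≤ k := Nat.cast_nonneg _
  rw [Real.log_pow, abs_of_nonneg (mul_nonneg hk (by linarith))]
  have h3 : (k : ℝ) * 0.6931471803 ≤ k * Real.log b := mul_le_mul_of_nonneg_left (by linarith) hk
  nlinarith

/-- the one-dimensional statement for all kinds of families -/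
theorem kind_fine {F : ℤ → Set Fam} (hF : Kind F) (δ : ℝ) (hδ : 0 < δ) (hδ1 : δ ≤ 1 / 2) :
    ∃ W e : ℕ, 1 ≤ W ∧ ∀ κ : ℤ, κ ≠ 0 → ∃ X₀ : ℕ, ∀ X : ℕ, X₀ ≤ X → ∀ f ∈ F κ,
      (∀ i ∈ f.set, 0 ≤ f.wt i) ∧ ∑ i ∈ f.set, f.wt i ≤ 1 ∧
      FineAt δ X (fun x => (x : ℝ) ^ W ≤ f.size) (loss f e * (2 * (X : ℝ) ^ (-(δ / 2)))) f.set f.wt f.val := by
  classical
  have hτ : ∀ X : ℕ, 0 ≤ 2 * (X : ℝ) ^ (-(δ / 2)) := fun X => by positivity
  cases hF with
  | automatic b hb σ hσ M hM =>
    have : Fintype σ := Fintype.ofFinite σ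
    have hmem : ∀ N, accepted b M N = Pool.Agent.N794.CG.mem b M N := fun N => by
      unfold accepted Pool.Agent.N794.CG.mem
      rfl
    obtain ⟨W, e, hW, H⟩ := eng_aut hτ (eng_fine δ hδ hδ1) b hb M (fun j => by simpa only [hmem] using hM j)
    refine ⟨W, e, hW, fun κ hκ => ?_⟩
    obtain ⟨X₀, J⟩ := H κ hκ
    refine ⟨X₀, fun X hX f hf => ?_⟩
    obtain ⟨N, c, rfl⟩ := hf
    refine ⟨fun i _ => by positivity, card_one _, fun s => ?_⟩
    simp only [hmem]
    refine ((J X hX N c s).mono fun n hn x hXx hxW => hn x hXx (by exact_mod_cast hxW)).le ?_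
    apply mul_le_mul_of_nonneg_right _ (hτ X)
    unfold loss
    apply pow_le_pow_left₀ (Real.log_natCast_nonneg N)
    have := le_abs_self (Real.log N)
    simp only
    linarith
  | exchangeable b L hb hL η hη hη1 T =>
    obtain ⟨W, hW, H⟩ := eng_flex hτ (eng_fine δ hδ hδ1) b L hb hL η hη hη1 T
    refine ⟨W, 2 * T, hW, fun κ hκ => ?_⟩
    obtain ⟨X₀, J⟩ := H κ hκ
    refine ⟨X₀, fun X hX f hf => ?_⟩
    obtain ⟨k, p, c, hp, rfl⟩ := hf
    refine ⟨fun i _ => hp.nonneg i, hp.sum.le, fun s => ?_⟩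
    refine ((J X hX k p (flex_of hp) c s).mono fun n hn x hXx hxW => hn x hXx (by
      have hxW' : (x : ℝ) ^ W ≤ (b : ℝ) ^ k := hxW
      exact_mod_cast hxW')).le ?_
    exact mul_le_mul_of_nonneg_right (pow_loss b k T hb) (hτ X)
  | rearranged b hb η hη =>
    obtain ⟨W, hW, H⟩ := eng_dig hτ (eng_fine δ hδ hδ1) b hb η hη
    refine ⟨W, 0, hW, fun κ hκ => ?_⟩
    obtain ⟨X₀, J⟩ := H κ hκ
    refine ⟨X₀, fun X hX f hf => ?_⟩
    obtain ⟨k, d, c, hk, hd, rfl⟩ := hf
    have hfac : (0 : ℝ) < (k.factorial : ℝ) := by exact_mod_cast k.factorial_pos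
    have hcard : ((univ : Finset (Equiv.Perm (Fin k))).card : ℝ) = k.factorial := by
      rw [card_univ, Fintype.card_perm, Fintype.card_fin]
    refine ⟨fun i _ => by positivity, ?_, fun s E hE hbad => ?_⟩
    · rw [← hcard]
      exact card_one _
    · have hd' : Pool.Agent.TH872.An.Spread b k η d := ⟨hd.1, fun a => by
        have := hd.2 a
        convert this⟩
      have h1 := (J X hX k hk c s).1 d hd'
      rw [Pool.Agent.R459.Fams.count_eq] at h1
      have h2 : (E.card : ℝ) ≤ 2 * (X : ℝ) ^ (-(δ / 2)) * k.factorial := by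
        refine le_trans ?_ h1
        rw [Nat.cast_le]
        apply card_le_card
        intro σ hσ
        rw [mem_filter]
        refine ⟨mem_univ _, fun hall => hbad σ hσ fun x hXx hxW => ?_⟩
        have hxW' : (x : ℝ) ^ W ≤ (b : ℝ) ^ k := hxW
        have h3 := hall x hXx (by exact_mod_cast hxW')
        unfold Pool.Agent.TH872.An.V at h3
        exact h3
      rw [sum_const, nsmul_eq_mul]
      simp only
      rw [mul_one_div, div_le_iff₀ hfac]
      refine h2.trans ?_
      apply mul_le_mul_of_nonneg_right _ hfac.le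
      exact le_mul_of_one_le_left (hτ X) (one_le_loss _ _)
  | palindromic b hb =>
    obtain ⟨W, hW, H⟩ := eng_dig hτ (eng_fine δ hδ hδ1) b hb 1 one_pos
    refine ⟨W, 0, hW, fun κ hκ => ?_⟩
    obtain ⟨X₀, J⟩ := H κ hκ
    refine ⟨X₀, fun X hX f hf => ?_⟩
    obtain ⟨k, c, hk, rfl⟩ := hf
    refine ⟨fun i _ => by positivity, card_one _, fun s E hE hbad => ?_⟩
    have h1 := (J X hX k hk c s).2.1
    have hnum : ∀ Q : ℕ → Prop, Pool.Agent.TH872.Tr.num b k Q = ((palindromes b k).filter Q).card := by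
      intro Q
      unfold Pool.Agent.TH872.Tr.num palindromes Pool.Agent.TH872.Tr.IsPalindrome
      congr 1
      ext v
      simp only [mem_filter, mem_range]
      constructor
      · rintro ⟨hv, ⟨q1, _, q3⟩, q4⟩
        exact ⟨⟨hv, q1, q3⟩, q4⟩
      · rintro ⟨⟨hv, q1, q3⟩, q4⟩
        exact ⟨hv, ⟨q1, hv, q3⟩, q4⟩
    rw [hnum, hnum, filter_true] at h1
    have h2 : (E.card : ℝ) ≤ 2 * (X : ℝ) ^ (-(δ / 2)) * (palindromes b k).card := by
      refine le_trans ?_ h1
      rw [Nat.cast_le]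
      apply card_le_card
      intro v hv
      simp only [mem_filter]
      refine ⟨hE hv, fun hall => hbad v hv fun x hXx hxW => ?_⟩
      have hxW' : (x : ℝ) ^ W ≤ (b : ℝ) ^ k := hxW
      exact hall x hXx (by exact_mod_cast hxW')
    rw [sum_const, nsmul_eq_mul]
    simp only
    have hone := le_mul_of_one_le_left (hτ X) (one_le_loss ⟨ℕ, palindromes b k, fun _ => 1 / ((palindromes b k).card : ℝ),
      fun v => c + κ * (v : ℕ), (b : ℝ) ^ k⟩ 0)
    rcases Nat.eq_zero_or_pos (palindromes b k).card with h0 | h0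
    · rw [h0]
      simp only [Nat.cast_zero, div_zero, mul_zero]
      exact (hτ X).trans hone
    · have h5 : (0 : ℝ) < (palindromes b k).card := by exact_mod_cast h0
      rw [mul_one_div, div_le_iff₀ h5]
      exact h2.trans (mul_le_mul_of_nonneg_right hone h5.le)
  | residues =>
    obtain ⟨W, hW, H⟩ := eng_res hτ (eng_fine δ hδ hδ1)
    refine ⟨W, 0, hW, fun κ hκ => ?_⟩
    obtain ⟨X₀, J⟩ := H κ hκ
    refine ⟨X₀, fun X hX f hf => ?_⟩
    obtain ⟨ι, q, hq, u, y, Z, c, hZ, hZq, hfl, rfl⟩ := hf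
    refine ⟨fun i _ => by positivity, card_one _, fun s => ?_⟩
    refine (J X hX ι q u y Z hZ hZq hfl c s).le ?_
    exact le_mul_of_one_le_left (hτ X) (one_le_loss _ _)
  | nonintegral t g ht hn hg =>
    obtain ⟨W, hW, H⟩ := eng_sv hτ (eng_fine δ hδ hδ1) t g ht hn hg
    refine ⟨W, 0, hW, fun κ hκ => ?_⟩
    obtain ⟨X₀, J⟩ := H κ hκ
    refine ⟨X₀, fun X hX f hf => ?_⟩
    obtain ⟨M, c, rfl⟩ := hf
    refine ⟨fun i _ => by positivity, ?_, fun s => ?_⟩
    · have := card_one (Icc 1 M)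
      simpa using this
    · refine (J X hX M c s).le ?_
      exact le_mul_of_one_le_left (hτ X) (one_le_loss _ _)

end Pool.Agent.T3h87.LT
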