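import Pool.Agent.T3h87.LT.Kinds

/-!
# Properties of several residues, for almost all vectors of independent members of sparse families
-/

set_option autoImplicit false

namespace Pool.Agent.T3h87.LT

open Finset Filter
open Pool.Agent.R459.Eq (pri mem_pri mean Vs)
open Pool.Agent.N794.CG (FineAt Avh meanD FS QF Mostly)

lemma absorb1 (C ρ : ℝ) (hρ : 0 < ρ) : ∃ X₁ : ℕ, ∀ X : ℕ, X₁ ≤ X → C ≤ (X : ℝ) ^ ρ := by
  have h := (tendsto_rpow_atTop hρ).comp tendsto_natCast_atTop_atTop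
  obtain ⟨X₁, h1⟩ := eventually_atTop.1 (h.eventually_ge_atTop C)
  exact ⟨X₁, fun X hX => h1 X hX⟩

lemma loss_mono (f : Fam) {e e' : ℕ} (h : e ≤ e') : loss f e ≤ loss f e' :=
  pow_le_pow_right₀ (by linarith [abs_nonneg (Real.log f.size)]) h

lemma range_chain (D W W' x : ℕ) (Z : ℝ) (hx : 2 ≤ x) (hW : (D + 1) * W' ≤ W) (h : (x : ℝ) ^ W ≤ Z) (y : ℕ)
    (hy : y ≤ 2 ^ D * x) : (y : ℝ) ^ W' ≤ Z := by
  refine le_trans ?_ h
  have h1 : y ^ W' ≤ x ^ W := by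
    calc y ^ W' ≤ (x ^ (D + 1)) ^ W' := by
          apply Nat.pow_le_pow_left
          refine hy.trans ?_
          rw [pow_succ]
          exact Nat.mul_le_mul_right x (Nat.pow_le_pow_left hx D)
      _ = x ^ ((D + 1) * W') := (pow_mul _ _ _).symm
      _ ≤ x ^ W := Nat.pow_le_pow_right (by omega) hW
  exact_mod_cast h1

/-- **the general theorem** -/
theorem poly_gen (D : ℕ) (F : Fin D → ℤ → Set Fam) (hF : ∀ l, Kind (F l)) (δ : ℝ) (hδ : 0 < δ) (hδ1 : δ ≤ 1) :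
    ∃ W e : ℕ, 1 ≤ W ∧ ∀ κ : Fin D → ℤ, (∀ l, κ l ≠ 0) → ∃ X₀ : ℕ, ∀ X : ℕ, X₀ ≤ X →
    ∀ f : Fin D → Fam, (∀ l, f l ∈ F l (κ l)) → (∀ l, ∀ i ∈ (f l).set, 0 ≤ (f l).wt i) ∧
    ∀ h : ℕ → ℕ → (Fin D → ℤ) → ℝ, SysN h → ∀ E : Finset (∀ l, (f l).ι), E ⊆ Fintype.piFinset (fun l => (f l).set) →
    (∀ i ∈ E, ∃ x : ℕ, X ≤ x ∧ (∀ l, (x : ℝ) ^ W ≤ (f l).size) ∧ ∃ j : ℕ, (j : ℝ) ≤ (x : ℝ) ^ (δ / (8 * (D + 1))) ∧
      √(max 1 (∑ p ∈ pri (2 ^ D * x), meanD p D (h j p))) * (x : ℝ) ^ δ <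
        |∑ p ∈ pri x, (h j p (fun l => (f l).val (i l)) - meanD p D (h j p))|) →
    ∑ i ∈ E, ∏ l, (f l).wt (i l) ≤ 1 / 2 * (∑ l, loss (f l) e) * (X : ℝ) ^ (-(δ / (8 * (D + 1)))) := by
  classical
  have hD : (0 : ℝ) ≤ D := Nat.cast_nonneg D
  obtain ⟨δ₀, hδ₀⟩ : ∃ δ₀, δ₀ = δ / (2 * ((D : ℝ) + 1)) := ⟨_, rfl⟩
  obtain ⟨ρ, hρ⟩ : ∃ ρ, ρ = δ / (8 * ((D : ℝ) + 1)) := ⟨_, rfl⟩
  have hδ₀0 : 0 < δ₀ := by rw [hδ₀]; positivity
  have hρ0 : 0 < ρ := by rw [hρ]; positivity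
  have hδρ : δ₀ / 2 = 2 * ρ := by
    rw [hδ₀, hρ]
    field_simp
    ring
  have hδ₀1 : δ₀ ≤ 1 / 2 := by
    rw [hδ₀, div_le_iff₀ (by positivity)]
    nlinarith
  have hDδ : D * δ₀ ≤ δ / 2 := by
    have e : δ₀ * (2 * ((D : ℝ) + 1)) = δ := by
      rw [hδ₀]
      field_simp
    nlinarith
  choose W' e' hW' H using fun l => kind_fine (hF l) δ₀ hδ₀0 hδ₀1
  have hWs : ∀ l, W' l ≤ ∑ l, W' l := fun l => single_le_sum (f := W') (fun _ _ => Nat.zero_le _) (mem_univ l)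
  have hes : ∀ l, e' l ≤ ∑ l, e' l := fun l => single_le_sum (f := e') (fun _ _ => Nat.zero_le _) (mem_univ l)
  refine ⟨(D + 1) * (∑ l, W' l) + 1, ∑ l, e' l, by omega, fun κ hκ => ?_⟩
  choose X' J using fun l => H l (κ l) (hκ l)
  have hXs : ∀ l, X' l ≤ ∑ l, X' l := fun l => single_le_sum (f := X') (fun _ _ => Nat.zero_le _) (mem_univ l)
  obtain ⟨X₁, hX₁⟩ := absorb1 4 ρ hρ0
  obtain ⟨X₂, hX₂⟩ := absorb1 (2 ^ (D ^ 2 + D)) (δ / 2) (by linarith)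
  refine ⟨(∑ l, X' l) + X₁ + X₂ + 2, fun X hX f hf => ?_⟩
  have K := fun l => J l X (by have := hXs l; omega) (f l) (hf l)
  refine ⟨fun l => (K l).1, fun h hh E hE hbad => ?_⟩
  have hXr : (0 : ℝ) < X := by exact_mod_cast (by omega : 0 < X)
  obtain ⟨R, hR⟩ : ∃ R : ℕ → Prop, R = fun y : ℕ => ∀ l, (y : ℝ) ^ (W' l) ≤ (f l).size := ⟨_, rfl⟩
  have hRm : ∀ x y : ℕ, x ≤ y → R y → R x := by
    intro x y hxy hy
    rw [hR] at hy ⊢
    intro l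
    refine le_trans ?_ (hy l)
    exact pow_le_pow_left₀ (Nat.cast_nonneg x) (by exact_mod_cast hxy) _
  have h1 := multiN δ₀ hδ₀0 (by linarith) X (by omega) R hRm D (fun l => (f l).ι) (fun l => (f l).set) (fun l => (f l).wt)
    (fun l => (f l).val) (fun l => loss (f l) (e' l) * (2 * (X : ℝ) ^ (-(δ₀ / 2))))
    (fun l => mul_nonneg (le_trans zero_le_one (one_le_loss _ _)) (by positivity)) (fun l => (K l).1) (fun l => (K l).2.1)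
    (fun l s => ((K l).2.2 s).mono fun n hn x hXx hRx => hn x hXx (by rw [hR] at hRx; exact hRx l)) h hh E hE (by
      intro i hi
      obtain ⟨x, hXx, hsz, j, hj, hlt⟩ := hbad i hi
      have hx2 : 2 ≤ x := by omega
      have hx1 : (1 : ℝ) ≤ x := by exact_mod_cast (by omega : 1 ≤ x)
      have hxp : (0 : ℝ) < x := by linarith
      refine ⟨x, hXx, ?_, j, ?_, ?_⟩
      · rw [hR]
        intro l
        refine range_chain D _ (W' l) x _ hx2 ?_ (hsz l) _ le_rfl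
        have := Nat.mul_le_mul_left (D + 1) (hWs l)
        omega
      · refine hj.trans ?_
        rw [← hρ, hδρ]
        exact Real.rpow_le_rpow_of_exponent_le hx1 (by linarith)
      · refine lt_of_le_of_lt ?_ hlt
        have h2 : (2 : ℝ) ^ (D ^ 2 + D) ≤ (x : ℝ) ^ (δ / 2) := hX₂ x (by omega)
        have h3 : (x : ℝ) ^ ((D : ℝ) * δ₀) ≤ (x : ℝ) ^ (δ / 2) := Real.rpow_le_rpow_of_exponent_le hx1 hDδ
        have h4 : (x : ℝ) ^ δ = (x : ℝ) ^ (δ / 2) * (x : ℝ) ^ (δ / 2) := by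
          rw [← Real.rpow_add hxp]
          congr 1
          ring
        rw [h4]
        obtain ⟨S, hS⟩ : ∃ S, S = √(max 1 (∑ p ∈ pri (2 ^ D * x), meanD p D (h j p))) := ⟨_, rfl⟩
        have hS0 : 0 ≤ S := by rw [hS]; exact Real.sqrt_nonneg _
        rw [← hS]
        calc 2 ^ (D ^ 2 + D) * (S * (x : ℝ) ^ ((D : ℝ) * δ₀)) = S * (2 ^ (D ^ 2 + D) * (x : ℝ) ^ ((D : ℝ) * δ₀)) := by ring
          _ ≤ S * ((x : ℝ) ^ (δ / 2) * (x : ℝ) ^ (δ / 2)) :=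
              mul_le_mul_of_nonneg_left (mul_le_mul h2 h3 (by positivity) (by positivity)) hS0)
  refine h1.trans ?_
  have h5 : 2 * (X : ℝ) ^ (-(δ₀ / 2)) ≤ 1 / 2 * (X : ℝ) ^ (-ρ) := by
    have h6 : (4 : ℝ) ≤ (X : ℝ) ^ ρ := hX₁ X (by omega)
    have h7 : (X : ℝ) ^ (-ρ) = (X : ℝ) ^ ρ * (X : ℝ) ^ (-(δ₀ / 2)) := by
      rw [← Real.rpow_add hXr]
      congr 1
      rw [hδρ]
      ring
    have h8 : 0 < (X : ℝ) ^ (-(δ₀ / 2)) := by positivity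
    rw [h7]
    nlinarith
  calc ∑ l, loss (f l) (e' l) * (2 * (X : ℝ) ^ (-(δ₀ / 2))) ≤ ∑ l, loss (f l) (∑ l, e' l) * (1 / 2 * (X : ℝ) ^ (-ρ)) := by
        apply sum_le_sum
        intro l _
        exact mul_le_mul (loss_mono _ (hes l)) h5 (by positivity) (le_trans zero_le_one (one_le_loss _ _))
    _ = 1 / 2 * (∑ l, loss (f l) (∑ l, e' l)) * (X : ℝ) ^ (-(δ / (8 * ((D : ℝ) + 1)))) := by
        rw [← sum_mul, ← hρ]
        ring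

end Pool.Agent.T3h87.LT
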