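import Pool.Agent.T3h87.LT.All
import Pool.Agent.T3h87.LT.Enc

/-!
# Properties indexed by small vectors of integers
-/

set_option autoImplicit false

namespace Pool.Agent.T3h87.LT

open Finset Filter
open Pool.Agent.R459.Eq (pri mem_pri)
open Pool.Agent.N794.CG (meanD meanD_eq)

open Classical in
/-- the number of the primes `p ≤ x` with the property -/
noncomputable def cnt {D : ℕ} (P : ℕ → (Fin D → ℤ) → Prop) (m : Fin D → ℤ) (x : ℕ) : ℕ :=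
  ((range (x + 1)).filter (fun p => p.Prime ∧ P p m)).card

open Classical in
/-- the sum over the primes `p ≤ x` of the proportion of the vectors of residues with the property -/
noncomputable def mdl {D : ℕ} (P : ℕ → (Fin D → ℤ) → Prop) (x : ℕ) : ℝ :=
  ∑ p ∈ (range (x + 1)).filter Nat.Prime,
    (((Fintype.piFinset fun _ : Fin D => range p).filter (fun t => P p (fun l => (t l : ℤ)))).card : ℝ) / (p : ℝ) ^ D

open Classical in
/-- the functions of the residues -/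
noncomputable def indp {D N : ℕ} (P : (Fin N → ℤ) → ℕ → (Fin D → ℤ) → Prop) (j p : ℕ) (m : Fin D → ℤ) : ℝ :=
  if ∃ u, enc N u = j ∧ P u p m then 1 else 0

open Classical in
lemma indp_enc {D N : ℕ} (P : (Fin N → ℤ) → ℕ → (Fin D → ℤ) → Prop) (u : Fin N → ℤ) (p : ℕ) (m : Fin D → ℤ) :
    indp P (enc N u) p m = if P u p m then 1 else 0 := by
  have h1 : (∃ u', enc N u' = enc N u ∧ P u' p m) ↔ P u p m :=
    ⟨fun ⟨u', e, h⟩ => by rw [← enc_inj N u' u e]; exact h, fun h => ⟨u, rfl, h⟩⟩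
  unfold indp
  simp only [h1]

lemma indp_sys {D N : ℕ} (P : (Fin N → ℤ) → ℕ → (Fin D → ℤ) → Prop)
    (hP : ∀ (u : Fin N → ℤ) (p : ℕ), p.Prime → ∀ m m' : Fin D → ℤ, (∀ l, (p : ℤ) ∣ m l - m' l) → (P u p m ↔ P u p m')) : SysA (indp P) := by
  classical
  refine ⟨?_, ?_⟩
  · intro j p hp m m' h
    have h1 : ∀ u, P u p m ↔ P u p m' := fun u => hP u p hp m m' h
    unfold indp
    simp only [h1]
  · intro j p _ m
    unfold indp
    split_ifs <;> norm_num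

lemma cnt_eq {D N : ℕ} (P : (Fin N → ℤ) → ℕ → (Fin D → ℤ) → Prop) (m : Fin D → ℤ) (u : Fin N → ℤ) (x : ℕ) :
    (cnt (P u) m x : ℝ) = ∑ p ∈ pri x, indp P (enc N u) p m := by
  classical
  simp only [indp_enc]
  unfold cnt
  have e : (range (x + 1)).filter (fun p => p.Prime ∧ P u p m) = (pri x).filter (fun p => P u p m) := by
    ext p
    simp only [mem_filter, mem_range, mem_pri]
    constructor
    · rintro ⟨h1, h2, h3⟩
      exact ⟨⟨by omega, h2⟩, h3⟩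
    · rintro ⟨⟨h1, h2⟩, h3⟩
      exact ⟨by omega, h2, h3⟩
  rw [e, card_filter]
  push_cast
  rfl

lemma mdl_eq {D N : ℕ} (P : (Fin N → ℤ) → ℕ → (Fin D → ℤ) → Prop) (u : Fin N → ℤ) (x : ℕ) :
    mdl (P u) x = ∑ p ∈ pri x, meanD p D (indp P (enc N u) p) := by
  classical
  have e : (range (x + 1)).filter Nat.Prime = pri x := by
    unfold pri
    congr!
  unfold mdl
  rw [e]
  apply sum_congr rfl
  intro p _
  rw [meanD_eq]
  simp only [indp_enc]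
  rw [card_filter]
  push_cast
  ring

/-- **properties indexed by small vectors of integers** -/
theorem poly_props (D N : ℕ) (F : Fin D → ℤ → Set Fam) (hF : ∀ l, Kind (F l)) (δ : ℝ) (hδ : 0 < δ) (hδ1 : δ ≤ 1) :
    ∃ (W e : ℕ) (ρ : ℝ), 1 ≤ W ∧ 0 < ρ ∧ ∀ κ : Fin D → ℤ, (∀ l, κ l ≠ 0) → ∃ X₀ : ℕ, 1 ≤ X₀ ∧ ∀ X : ℕ, X₀ ≤ X →
    ∀ f : Fin D → Fam, (∀ l, f l ∈ F l (κ l)) → ∀ P : (Fin N → ℤ) → ℕ → (Fin D → ℤ) → Prop,
    (∀ (u : Fin N → ℤ) (p : ℕ), p.Prime → ∀ m m' : Fin D → ℤ, (∀ l, (p : ℤ) ∣ m l - m' l) → (P u p m ↔ P u p m')) →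
    ∀ E : Finset (∀ l, (f l).ι), E ⊆ Fintype.piFinset (fun l => (f l).set) →
    (∀ i ∈ E, ¬ ∀ x : ℕ, X ≤ x → (∀ l, (x : ℝ) ^ W ≤ (f l).size) →
      ∀ u : Fin N → ℤ, (∀ k, |(u k : ℝ)| ≤ (x : ℝ) ^ ρ) →
        |(cnt (P u) (fun l => (f l).val (i l)) x : ℝ) - mdl (P u) x| ≤ √(max 1 (mdl (P u) (2 ^ D * x))) * (x : ℝ) ^ δ) →
    ∑ i ∈ E, ∏ l, (f l).wt (i l) ≤ (∑ l, (1 + |Real.log (f l).size|) ^ e) * (X : ℝ) ^ (-ρ) := by
  obtain ⟨W, e, K, ρ₀, hW, hK, hρ₀, H⟩ := poly_all D F hF δ hδ hδ1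
  obtain ⟨ρ, hρ⟩ : ∃ ρ : ℝ, ρ = min ρ₀ (1 / (2 ^ (N + 1) * (K : ℝ))) := ⟨_, rfl⟩
  have hKr : (1 : ℝ) ≤ K := by exact_mod_cast hK
  have hρ0 : 0 < ρ := by
    rw [hρ]
    exact lt_min hρ₀ (by positivity)
  have hρ1 : ρ ≤ ρ₀ := by rw [hρ]; exact min_le_left _ _
  have hρK : 2 ^ (N + 1) * (K : ℝ) * ρ ≤ 1 := by
    have h1 : ρ ≤ 1 / (2 ^ (N + 1) * (K : ℝ)) := by rw [hρ]; exact min_le_right _ _
    rw [le_div_iff₀ (by positivity)] at h1
    linarith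
  refine ⟨W, e, ρ, hW, hρ0, fun κ hκ => ?_⟩
  obtain ⟨X₀, J⟩ := H κ hκ
  obtain ⟨X₁, hX₁⟩ := absorb1 3 ρ hρ0
  refine ⟨X₀ + X₁ + 2, by omega, fun X hX f hf P hP E hE hbad => ?_⟩
  have hXr : (1 : ℝ) ≤ X := by exact_mod_cast (by omega : 1 ≤ X)
  refine (J X (by omega) f hf (indp P) (indp_sys P hP) E hE ?_).trans ?_
  · intro i hi
    have h1 := hbad i hi
    push Not at h1
    obtain ⟨x, hXx, hsz, u, hu, hlt⟩ := h1
    have hx1 : (1 : ℝ) ≤ x := by exact_mod_cast (by omega : 1 ≤ x)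
    have hxp : (0 : ℝ) < x := by linarith
    refine ⟨x, hXx, hsz, enc N u, ?_, ?_⟩
    · obtain ⟨B, hB⟩ : ∃ B, B = ⌊(x : ℝ) ^ ρ⌋₊ := ⟨_, rfl⟩
      have hBx : (B : ℝ) ≤ (x : ℝ) ^ ρ := by
        rw [hB]
        exact Nat.floor_le (by positivity)
      have h2 : ∀ k, (u k).natAbs ≤ B := by
        intro k
        rw [hB]
        apply Nat.le_floor
        have h3 : (((u k).natAbs : ℕ) : ℝ) = |(u k : ℝ)| := by
          rw [← Int.cast_abs, Int.abs_eq_natAbs]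
          rfl
        rw [h3]
        exact hu k
      have h4 := enc_le N u B h2
      have h5 : ((enc N u : ℕ) : ℝ) + 1 ≤ (2 * (B : ℝ) + 1) ^ (2 ^ N) := by
        exact_mod_cast h4
      have h7 : (3 : ℝ) ≤ (x : ℝ) ^ ρ := hX₁ x (by omega)
      have h8 : 2 * (B : ℝ) + 1 ≤ ((x : ℝ) ^ ρ) ^ 2 := by nlinarith
      have h9 : (((enc N u : ℕ) : ℝ) + 1) ^ K ≤ (x : ℝ) := by
        calc (((enc N u : ℕ) : ℝ) + 1) ^ K ≤ ((2 * (B : ℝ) + 1) ^ (2 ^ N)) ^ K := pow_le_pow_left₀ (by positivity) h5 _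
          _ ≤ ((((x : ℝ) ^ ρ) ^ 2) ^ (2 ^ N)) ^ K :=
              pow_le_pow_left₀ (by positivity) (pow_le_pow_left₀ (by positivity) h8 _) _
          _ = (x : ℝ) ^ (2 ^ (N + 1) * (K : ℝ) * ρ) := by
              rw [← pow_mul, ← pow_mul, ← Real.rpow_natCast, ← Real.rpow_mul hxp.le]
              congr 1
              push_cast
              ring
          _ ≤ (x : ℝ) ^ (1 : ℝ) := Real.rpow_le_rpow_of_exponent_le hx1 hρK
          _ = x := Real.rpow_one _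
      exact_mod_cast h9
    · rw [sum_sub_distrib, ← cnt_eq, ← mdl_eq, ← mdl_eq]
      exact hlt
  · apply mul_le_mul_of_nonneg_left _ (sum_nonneg fun l _ => by positivity)
    exact Real.rpow_le_rpow_of_exponent_le hXr (by linarith)

end Pool.Agent.T3h87.LT
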