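import Pool.Agent.T3h87.LT.All
import Pool.Agent.T3h87.LT.Enc

/-!
# Functions of several residues which may be as large as the square root of the prime
-/

set_option autoImplicit false

namespace Pool.Agent.T3h87.LT

open Finset Filter
open Pool.Agent.R459.Eq (pri mem_pri mean Vs)
open Pool.Agent.N794.CG (meanD meanD_eq)

/-- functions of several residues which are at most `√p` and have mean squares at most one -/
structure SysR {D : ℕ} (φ : ℕ → ℕ → (Fin D → ℤ) → ℝ) : Prop where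
  per : ∀ j p : ℕ, p.Prime → ∀ m m' : Fin D → ℤ, (∀ l, (p : ℤ) ∣ m l - m' l) → φ j p m = φ j p m'
  bd : ∀ j p : ℕ, p.Prime → ∀ m : Fin D → ℤ, |φ j p m| ≤ √p
  sq : ∀ j p : ℕ, p.Prime → meanD p D (fun m => φ j p m ^ 2) ≤ 1

open Classical in
/-- the layers of a nonnegative number -/
noncomputable def lay (k : ℕ) (y : ℝ) : ℝ :=
  if (k = 0 ∧ y < 1) ∨ (k ≠ 0 ∧ (2 : ℝ) ^ k ≤ 2 * y ∧ y < 2 ^ k) then y / 2 ^ k else 0

lemma lay_mem (k : ℕ) (y : ℝ) (hy : 0 ≤ y) : 0 ≤ lay k y ∧ lay k y ≤ 1 := by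
  have h2 : (0 : ℝ) < 2 ^ k := by positivity
  unfold lay
  split_ifs with h
  · refine ⟨by positivity, ?_⟩
    rw [div_le_one h2]
    rcases h with ⟨h, h'⟩ | ⟨_, _, h⟩
    · subst h
      simpa using h'.le
    · exact h.le
  · norm_num

lemma lay_sq (k : ℕ) (y : ℝ) (hy : 0 ≤ y) (hk : k ≠ 0) : lay k y ≤ 2 * y ^ 2 / 4 ^ k := by
  have h2 : (0 : ℝ) < 2 ^ k := by positivity
  have h4 : (4 : ℝ) ^ k = 2 ^ k * 2 ^ k := by
    rw [← mul_pow]
    norm_num
  unfold lay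
  split_ifs with h
  · rcases h with ⟨h, _⟩ | ⟨_, h, _⟩
    · exact absurd h hk
    · rw [h4, div_le_div_iff₀ h2 (by positivity)]
      have : y * 2 ^ k ≤ 2 * y ^ 2 := by nlinarith
      nlinarith
  · positivity

lemma lay_sum (K : ℕ) (y : ℝ) (hy : 0 ≤ y) (hK : y < 2 ^ K) : ∑ k ∈ range (K + 1), 2 ^ k * lay k y = y := by
  induction K with
  | zero =>
    rw [sum_range_one]
    unfold lay
    rw [if_pos (Or.inl ⟨rfl, by simpa using hK⟩)]
    simp
  | succ K ih =>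
    rw [sum_range_succ]
    by_cases h : y < 2 ^ K
    · rw [ih h]
      unfold lay
      rw [if_neg]
      · ring
      · rintro (⟨h1, _⟩ | ⟨_, h1, _⟩)
        · omega
        · rw [pow_succ] at h1
          linarith
    · push Not at h
      have h0 : ∑ k ∈ range (K + 1), 2 ^ k * lay k y = 0 := by
        refine sum_eq_zero fun k hk => ?_
        rw [mem_range] at hk
        have h3 : (2 : ℝ) ^ k ≤ 2 ^ K := pow_le_pow_right₀ (by norm_num) (by omega)
        unfold lay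
        rw [if_neg, mul_zero]
        rintro (⟨h1, h2⟩ | ⟨_, _, h1⟩)
        · have : (1 : ℝ) ≤ 2 ^ K := one_le_pow₀ (by norm_num)
          linarith
        · linarith
      rw [h0, zero_add]
      unfold lay
      rw [if_pos (Or.inr ⟨by omega, by rw [pow_succ]; linarith, hK⟩)]
      field_simp

/-- the positive part or the negative part -/
noncomputable def sg (s : ℕ) (y : ℝ) : ℝ := if s = 0 then max y 0 else max (-y) 0

lemma sg_mem (s : ℕ) (y : ℝ) : 0 ≤ sg s y ∧ sg s y ≤ |y| := by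
  unfold sg
  split_ifs
  · exact ⟨le_max_right _ _, max_le (le_abs_self _) (abs_nonneg _)⟩
  · exact ⟨le_max_right _ _, max_le (neg_le_abs _) (abs_nonneg _)⟩

lemma sg_sub (y : ℝ) : sg 0 y - sg 1 y = y := by
  unfold sg
  rw [if_pos rfl, if_neg one_ne_zero]
  rcases le_total 0 y with h | h
  · rw [max_eq_left h, max_eq_right (by linarith)]
    ring
  · rw [max_eq_right h, max_eq_left (by linarith)]
    ring

/-- the bounded system -/
noncomputable def lays {D : ℕ} (φ : ℕ → ℕ → (Fin D → ℤ) → ℝ) (i p : ℕ) (m : Fin D → ℤ) : ℝ :=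
  lay (i.unpair.2 / 2) (sg (i.unpair.2 % 2) (φ i.unpair.1 p m))

lemma lays_pair {D : ℕ} (φ : ℕ → ℕ → (Fin D → ℤ) → ℝ) (j k s p : ℕ) (hs : s < 2) (m : Fin D → ℤ) :
    lays φ (Nat.pair j (2 * k + s)) p m = lay k (sg s (φ j p m)) := by
  unfold lays
  rw [Nat.unpair_pair]
  have h1 : (2 * k + s) / 2 = k := by omega
  have h2 : (2 * k + s) % 2 = s := by omega
  simp only [h1, h2]

lemma lays_sys {D : ℕ} {φ : ℕ → ℕ → (Fin D → ℤ) → ℝ} (hφ : SysR φ) : SysA (lays φ) := by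
  refine ⟨fun i p hp m m' h => ?_, fun i p _ m => lay_mem _ _ (sg_mem _ _).1⟩
  unfold lays
  rw [hφ.per _ p hp m m' h]

lemma meanD_mono (p D : ℕ) (f g : (Fin D → ℤ) → ℝ) (h : ∀ m, f m ≤ g m) : meanD p D f ≤ meanD p D g := by
  rw [meanD_eq, meanD_eq]
  exact mul_le_mul_of_nonneg_left (sum_le_sum fun m _ => h _) (by positivity)

lemma meanD_lin (p D : ℕ) {ι : Type} (S : Finset ι) (a : ι → ℝ) (g : ι → (Fin D → ℤ) → ℝ) :
    meanD p D (fun m => ∑ k ∈ S, a k * g k m) = ∑ k ∈ S, a k * meanD p D (g k) := by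
  simp only [meanD_eq]
  rw [sum_comm]
  simp only [← mul_sum]
  rw [mul_sum]
  exact sum_congr rfl fun k _ => by ring

lemma meanD_one (p D : ℕ) (hp : 0 < p) : meanD p D (fun _ => 1) = 1 := by
  rw [meanD_eq, sum_const, Fintype.card_piFinset_const, card_range, nsmul_eq_mul]
  have : (0 : ℝ) < p := by exact_mod_cast hp
  push_cast
  field_simp

lemma pri_card (x : ℕ) : ((pri x).card : ℝ) ≤ x := by
  have h1 : pri x ⊆ Icc 1 x := by
    intro p hp
    rw [mem_pri] at hp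
    rw [mem_Icc]
    exact ⟨hp.2.pos, hp.1⟩
  have h2 := card_le_card h1
  rw [Nat.card_Icc, Nat.add_sub_cancel] at h2
  exact_mod_cast h2

/-- the logarithm is small -/
lemma log_small (C ε : ℝ) (hC : 0 ≤ C) (hε : 0 < ε) : ∃ X₁ : ℕ, 1 ≤ X₁ ∧ ∀ x : ℕ, X₁ ≤ x → C * ((Nat.log 2 x : ℝ) + 4) ≤ (x : ℝ) ^ ε := by
  have h1 : ∀ᶠ x : ℕ in atTop, C * (4 / ε + 4) ≤ (x : ℝ) ^ (ε / 2) :=
    ((tendsto_rpow_atTop (by positivity : 0 < ε / 2)).comp tendsto_natCast_atTop_atTop).eventually_ge_atTop _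
  obtain ⟨X₁, hX₁⟩ := eventually_atTop.1 h1
  refine ⟨X₁ + 1, by omega, fun x hx => ?_⟩
  have h2 := hX₁ x (by omega)
  have hx1 : (1 : ℝ) ≤ x := by exact_mod_cast (by omega : 1 ≤ x)
  have hx0 : (0 : ℝ) < x := by linarith
  have h3 : (Nat.log 2 x : ℝ) ≤ 4 / ε * (x : ℝ) ^ (ε / 2) := by
    have h4 : ((2 : ℝ)) ^ (Nat.log 2 x) ≤ x := by exact_mod_cast Nat.pow_log_le_self 2 (by omega)
    have h5 : (Nat.log 2 x : ℝ) * Real.log 2 ≤ Real.log x := by
      rw [← Real.log_pow]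
      exact Real.log_le_log (by positivity) h4
    have h6 : (1 / 2 : ℝ) < Real.log 2 := by have := Real.log_two_gt_d9; linarith
    have h7 := Real.log_le_rpow_div hx0.le (by positivity : 0 < ε / 2)
    have h8 : (0 : ℝ) ≤ Nat.log 2 x := Nat.cast_nonneg _
    have h9 : (x : ℝ) ^ (ε / 2) / (ε / 2) = 2 / ε * (x : ℝ) ^ (ε / 2) := by field_simp
    rw [h9] at h7
    have h10 : 4 / ε * (x : ℝ) ^ (ε / 2) = 2 * (2 / ε * (x : ℝ) ^ (ε / 2)) := by ring
    rw [h10]
    nlinarith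
  have h4 : (1 : ℝ) ≤ (x : ℝ) ^ (ε / 2) := Real.one_le_rpow hx1 (by positivity)
  have h5 : (x : ℝ) ^ ε = (x : ℝ) ^ (ε / 2) * (x : ℝ) ^ (ε / 2) := by
    rw [← Real.rpow_add hx0]
    congr 1
    ring
  rw [h5]
  calc C * ((Nat.log 2 x : ℝ) + 4) ≤ C * (4 / ε * (x : ℝ) ^ (ε / 2) + 4 * (x : ℝ) ^ (ε / 2)) := by
        apply mul_le_mul_of_nonneg_left _ hC
        linarith
    _ = C * (4 / ε + 4) * (x : ℝ) ^ (ε / 2) := by ring
    _ ≤ _ := mul_le_mul_of_nonneg_right h2 (by positivity)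

/-- **arbitrary sequences of functions which are at most `√p` and have bounded mean squares** -/
theorem real_all (D : ℕ) (F : Fin D → ℤ → Set Fam) (hF : ∀ l, Kind (F l)) (δ : ℝ) (hδ : 0 < δ) (hδ1 : δ ≤ 1) :
    ∃ (W e K : ℕ) (ρ : ℝ), 1 ≤ W ∧ 1 ≤ K ∧ 0 < ρ ∧ ∀ κ : Fin D → ℤ, (∀ l, κ l ≠ 0) → ∃ X₀ : ℕ, ∀ X : ℕ, X₀ ≤ X →
    ∀ f : Fin D → Fam, (∀ l, f l ∈ F l (κ l)) →
    ∀ φ : ℕ → ℕ → (Fin D → ℤ) → ℝ, SysR φ → ∀ E : Finset (∀ l, (f l).ι), E ⊆ Fintype.piFinset (fun l => (f l).set) →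
    (∀ i ∈ E, ∃ x : ℕ, X ≤ x ∧ (∀ l, (x : ℝ) ^ W ≤ (f l).size) ∧ ∃ j : ℕ, (j + 1) ^ K ≤ x ∧
      (x : ℝ) ^ (1 / 2 + δ) < |∑ p ∈ pri x, (φ j p (fun l => (f l).val (i l)) - meanD p D (φ j p))|) →
    ∑ i ∈ E, ∏ l, (f l).wt (i l) ≤ (∑ l, (1 + |Real.log (f l).size|) ^ e) * (X : ℝ) ^ (-ρ) := by
  obtain ⟨W, e, K, ρ, hW, hK, hρ, H⟩ := poly_all D F hF (δ / 2) (by positivity) (by linarith)
  refine ⟨W, e, 2 * K, ρ, hW, by omega, hρ, fun κ hκ => ?_⟩
  obtain ⟨X₀, J⟩ := H κ hκ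
  obtain ⟨C, hC⟩ : ∃ C : ℝ, C = 2 * (2 + 2 ^ (D + 1)) := ⟨_, rfl⟩
  have hC0 : 0 ≤ C := by rw [hC]; positivity
  obtain ⟨X₁, hX₁, h1⟩ := log_small C (δ / 2) hC0 (by positivity)
  obtain ⟨X₂, hX₂, h2⟩ := log_small 2 (1 / (2 * K)) (by norm_num) (by positivity)
  refine ⟨X₀ + X₁ + X₂, fun X hX f hf φ hφ E hE hbad => ?_⟩
  refine J X (by omega) f hf (lays φ) (lays_sys hφ) E hE fun i hi => ?_
  obtain ⟨x, hXx, hsz, j, hj, hlt⟩ := hbad i hi
  have hx1 : 1 ≤ x := by omega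
  have hx1r : (1 : ℝ) ≤ x := by exact_mod_cast hx1
  have hx0 : (0 : ℝ) < x := by linarith
  refine ⟨x, hXx, hsz, ?_⟩
  obtain ⟨m, hm⟩ : ∃ m : Fin D → ℤ, m = fun l => (f l).val (i l) := ⟨_, rfl⟩
  rw [← hm] at hlt ⊢
  -- the number of the layers
  obtain ⟨r, hr⟩ : ∃ r, r = Nat.sqrt x := ⟨_, rfl⟩
  have hr1 : 1 ≤ r := by rw [hr]; exact Nat.sqrt_pos.2 hx1
  have hrx : (r : ℝ) ≤ √x := by
    rw [hr]
    apply Real.le_sqrt_of_sq_le
    have := Nat.sqrt_le' x
    exact_mod_cast this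
  have hrx' : √x < (r : ℝ) + 1 := by
    rw [Real.sqrt_lt' (by positivity), hr]
    have := Nat.lt_succ_sqrt' x
    exact_mod_cast this
  obtain ⟨Kx, hKx⟩ : ∃ Kx, Kx = Nat.log 2 r + 1 := ⟨_, rfl⟩
  have hK1 : √x < 2 ^ Kx := by
    have h3 : r < 2 ^ Kx := by rw [hKx]; exact Nat.lt_pow_succ_log_self (by norm_num) r
    have h4 : ((r : ℝ) + 1) ≤ 2 ^ Kx := by exact_mod_cast h3
    linarith
  have hK2 : (2 : ℝ) ^ Kx ≤ 2 * √x := by
    have h3 : 2 ^ (Nat.log 2 r) ≤ r := Nat.pow_log_le_self 2 (by omega)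
    have h4 : ((2 : ℝ)) ^ (Nat.log 2 r) ≤ r := by exact_mod_cast h3
    rw [hKx, pow_succ]
    linarith
  have hK3 : Kx ≤ Nat.log 2 x + 1 := by
    rw [hKx]
    have : r ≤ x := by rw [hr]; exact Nat.sqrt_le_self x
    have := Nat.log_mono_right (b := 2) this
    omega
  have hK3r : (Kx : ℝ) ≤ Nat.log 2 x + 1 := by exact_mod_cast hK3
  by_contra hcon
  push Not at hcon
  -- the bounds for the layers
  have hlay : ∀ k ∈ range (Kx + 1), ∀ s < 2,
      2 ^ k * |∑ p ∈ pri x, (lay k (sg s (φ j p m)) - meanD p D (fun m => lay k (sg s (φ j p m))))| ≤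
        (2 + 2 ^ (D + 1)) * (√x * (x : ℝ) ^ (δ / 2)) := by
    intro k hk s hs
    rw [mem_range] at hk
    have h2k : (2 : ℝ) ^ k ≤ 2 * √x := (pow_le_pow_right₀ (by norm_num) (by omega : k ≤ Kx)).trans hK2
    have h2k0 : (0 : ℝ) < 2 ^ k := by positivity
    have hidx : (Nat.pair j (2 * k + s) + 1) ^ K ≤ x := by
      have h3 := Nat.pair_lt_max_add_one_sq j (2 * k + s)
      have h4 : (Nat.pair j (2 * k + s) + 1) ^ K ≤ (max j (2 * k + s) + 1) ^ (2 * K) := by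
        rw [pow_mul]
        exact Nat.pow_le_pow_left h3 K
      refine h4.trans ?_
      rcases le_total (2 * k + s) j with h5 | h5
      · rw [max_eq_left h5]
        exact hj
      · rw [max_eq_right h5]
        have h6 := h2 x (by omega)
        have h7 : ((2 * k + s + 1 : ℕ) : ℝ) ≤ (x : ℝ) ^ (1 / (2 * (K : ℝ))) := by
          refine le_trans ?_ h6
          have h8 : (k : ℝ) ≤ Kx := by exact_mod_cast (by omega : k ≤ Kx)
          have h9 : (s : ℝ) ≤ 1 := by exact_mod_cast (by omega : s ≤ 1)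
          push_cast
          linarith
        have h8 : ((2 * k + s + 1 : ℕ) : ℝ) ^ (2 * K) ≤ x := by
          calc ((2 * k + s + 1 : ℕ) : ℝ) ^ (2 * K) ≤ ((x : ℝ) ^ (1 / (2 * (K : ℝ)))) ^ (2 * K) :=
                pow_le_pow_left₀ (Nat.cast_nonneg _) h7 _
            _ = x := by
                rw [← Real.rpow_natCast, ← Real.rpow_mul hx0.le]
                have hKr : (K : ℝ) ≠ 0 := by
                  have : (1 : ℝ) ≤ K := by exact_mod_cast hK
                  linarith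
                have : 1 / (2 * (K : ℝ)) * ((2 * K : ℕ) : ℝ) = 1 := by
                  push_cast
                  field_simp
                rw [this, Real.rpow_one]
        exact_mod_cast h8
    have h3 := hcon (Nat.pair j (2 * k + s)) hidx
    have e1 : ∀ p, lays φ (Nat.pair j (2 * k + s)) p = fun m => lay k (sg s (φ j p m)) := fun p =>
      funext fun m => lays_pair φ j k s p hs m
    simp only [e1] at h3
    -- the model
    have hmean : ∀ p ∈ pri (2 ^ D * x), meanD p D (fun m => lay k (sg s (φ j p m))) ≤ 2 / 4 ^ k := by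
      intro p hp
      have hpp := (mem_pri.1 hp).2
      by_cases hk0 : k = 0
      · subst hk0
        refine (meanD_mono p D _ (fun _ => 1) fun m => (lay_mem _ _ (sg_mem _ _).1).2).trans ?_
        rw [meanD_one p D hpp.pos]
        norm_num
      · have h4 : ∀ m, lay k (sg s (φ j p m)) ≤ ∑ _u ∈ range 1, (2 / 4 ^ k) * (φ j p m) ^ 2 := by
          intro m
          rw [sum_range_one]
          refine (lay_sq k _ (sg_mem _ _).1 hk0).trans ?_
          have h5 : (sg s (φ j p m)) ^ 2 ≤ (φ j p m) ^ 2 := by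
            rw [← sq_abs (φ j p m)]
            exact pow_le_pow_left₀ (sg_mem _ _).1 (sg_mem _ _).2 2
          rw [div_mul_eq_mul_div]
          apply div_le_div_of_nonneg_right _ (by positivity)
          linarith
        refine (meanD_mono p D _ _ h4).trans ?_
        rw [meanD_lin, sum_range_one]
        have h5 := hφ.sq j p hpp
        calc 2 / 4 ^ k * meanD p D (fun m => φ j p m ^ 2) ≤ 2 / 4 ^ k * 1 :=
              mul_le_mul_of_nonneg_left h5 (by positivity)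
          _ = _ := by ring
    have hV : ∑ p ∈ pri (2 ^ D * x), meanD p D (fun m => lay k (sg s (φ j p m))) ≤ 2 ^ (D + 1) * x / 4 ^ k := by
      refine (sum_le_sum hmean).trans ?_
      rw [sum_const, nsmul_eq_mul]
      have h4 := pri_card (2 ^ D * x)
      push_cast at h4
      calc ((pri (2 ^ D * x)).card : ℝ) * (2 / 4 ^ k) ≤ (2 ^ D * x) * (2 / 4 ^ k) :=
            mul_le_mul_of_nonneg_right h4 (by positivity)
        _ = _ := by rw [pow_succ]; ring
    have h4k : (4 : ℝ) ^ k = 2 ^ k * 2 ^ k := by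
      rw [← mul_pow]
      norm_num
    have hsq : √(max 1 (∑ p ∈ pri (2 ^ D * x), meanD p D (fun m => lay k (sg s (φ j p m))))) ≤ 1 + 2 ^ (D + 1) * √x / 2 ^ k := by
      rw [Real.sqrt_le_left (by positivity)]
      apply max_le
      · have : 0 ≤ 2 ^ (D + 1) * √x / 2 ^ k := by positivity
        nlinarith
      · refine hV.trans ?_
        have h5 : (2 ^ (D + 1) * √x / 2 ^ k) ^ 2 = 2 ^ (D + 1) * (2 ^ (D + 1) * x / 4 ^ k) := by
          rw [div_pow, mul_pow, Real.sq_sqrt hx0.le, h4k]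
          ring
        have h6 : (1 : ℝ) ≤ 2 ^ (D + 1) := one_le_pow₀ (by norm_num)
        have h7 : 0 ≤ 2 ^ (D + 1) * (x : ℝ) / 4 ^ k := by positivity
        have h8 : 0 ≤ 2 ^ (D + 1) * √x / 2 ^ k := by positivity
        nlinarith
    have hxd : 0 < (x : ℝ) ^ (δ / 2) := by positivity
    calc 2 ^ k * |∑ p ∈ pri x, (lay k (sg s (φ j p m)) - meanD p D (fun m => lay k (sg s (φ j p m))))| ≤
          2 ^ k * ((1 + 2 ^ (D + 1) * √x / 2 ^ k) * (x : ℝ) ^ (δ / 2)) := by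
          apply mul_le_mul_of_nonneg_left _ h2k0.le
          exact h3.trans (mul_le_mul_of_nonneg_right hsq hxd.le)
      _ = (2 ^ k + 2 ^ (D + 1) * √x) * (x : ℝ) ^ (δ / 2) := by field_simp
      _ ≤ ((2 + 2 ^ (D + 1)) * √x) * (x : ℝ) ^ (δ / 2) := by
          apply mul_le_mul_of_nonneg_right _ hxd.le
          linarith
      _ = _ := by ring
  -- the sum
  have hdec : ∀ p ∈ pri x, ∀ m, φ j p m = ∑ k ∈ range (Kx + 1), 2 ^ k * (lay k (sg 0 (φ j p m)) - lay k (sg 1 (φ j p m))) := by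
    intro p hp m
    have hpp := mem_pri.1 hp
    have h3 : |φ j p m| < 2 ^ Kx := by
      refine (hφ.bd j p hpp.2 m).trans_lt (lt_of_le_of_lt (Real.sqrt_le_sqrt ?_) hK1)
      exact_mod_cast hpp.1
    have h4 := lay_sum Kx (sg 0 (φ j p m)) (sg_mem _ _).1 ((sg_mem _ _).2.trans_lt h3)
    have h5 := lay_sum Kx (sg 1 (φ j p m)) (sg_mem _ _).1 ((sg_mem _ _).2.trans_lt h3)
    simp only [mul_sub]
    rw [sum_sub_distrib, h4, h5, sg_sub]
  have hmn : ∀ p ∈ pri x, meanD p D (φ j p) = ∑ k ∈ range (Kx + 1),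
      2 ^ k * (meanD p D (fun m => lay k (sg 0 (φ j p m))) - meanD p D (fun m => lay k (sg 1 (φ j p m)))) := by
    intro p hp
    have h3 : φ j p = fun m => ∑ k ∈ range (Kx + 1), 2 ^ k * (lay k (sg 0 (φ j p m)) - lay k (sg 1 (φ j p m))) :=
      funext fun m => hdec p hp m
    conv_lhs => rw [h3]
    rw [meanD_lin]
    refine sum_congr rfl fun k _ => ?_
    congr 1
    rw [meanD_eq, meanD_eq, meanD_eq, ← mul_sub, ← sum_sub_distrib]
  have htot : ∑ p ∈ pri x, (φ j p m - meanD p D (φ j p)) = ∑ k ∈ range (Kx + 1), 2 ^ k *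
      (∑ p ∈ pri x, (lay k (sg 0 (φ j p m)) - meanD p D (fun m => lay k (sg 0 (φ j p m)))) -
        ∑ p ∈ pri x, (lay k (sg 1 (φ j p m)) - meanD p D (fun m => lay k (sg 1 (φ j p m))))) := by
    have h3 : ∀ p ∈ pri x, φ j p m - meanD p D (φ j p) = ∑ k ∈ range (Kx + 1), 2 ^ k *
        ((lay k (sg 0 (φ j p m)) - meanD p D (fun m => lay k (sg 0 (φ j p m)))) -
          (lay k (sg 1 (φ j p m)) - meanD p D (fun m => lay k (sg 1 (φ j p m))))) := by
      intro p hp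
      rw [hmn p hp]
      conv_lhs => rw [hdec p hp m]
      rw [← sum_sub_distrib]
      exact sum_congr rfl fun k _ => by ring
    rw [sum_congr rfl h3, sum_comm]
    refine sum_congr rfl fun k _ => ?_
    rw [← mul_sum, sum_sub_distrib]
  have hfin : |∑ p ∈ pri x, (φ j p m - meanD p D (φ j p))| ≤ (x : ℝ) ^ (1 / 2 + δ) := by
    rw [htot]
    refine (abs_sum_le_sum_abs _ _).trans ?_
    have h3 : ∀ k ∈ range (Kx + 1), |2 ^ k *
      (∑ p ∈ pri x, (lay k (sg 0 (φ j p m)) - meanD p D (fun m => lay k (sg 0 (φ j p m)))) -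
        ∑ p ∈ pri x, (lay k (sg 1 (φ j p m)) - meanD p D (fun m => lay k (sg 1 (φ j p m)))))| ≤
        C * (√x * (x : ℝ) ^ (δ / 2)) := by
      intro k hk
      rw [abs_mul, abs_of_nonneg (by positivity : (0 : ℝ) ≤ 2 ^ k)]
      have h4 := hlay k hk 0 (by norm_num)
      have h5 := hlay k hk 1 (by norm_num)
      have h6 : |∑ p ∈ pri x, (lay k (sg 0 (φ j p m)) - meanD p D (fun m => lay k (sg 0 (φ j p m)))) -
        ∑ p ∈ pri x, (lay k (sg 1 (φ j p m)) - meanD p D (fun m => lay k (sg 1 (φ j p m))))| ≤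
        |∑ p ∈ pri x, (lay k (sg 0 (φ j p m)) - meanD p D (fun m => lay k (sg 0 (φ j p m))))| +
        |∑ p ∈ pri x, (lay k (sg 1 (φ j p m)) - meanD p D (fun m => lay k (sg 1 (φ j p m))))| := abs_sub _ _
      have h7 : (0 : ℝ) < 2 ^ k := by positivity
      have h8 := mul_le_mul_of_nonneg_left h6 h7.le
      rw [mul_add] at h8
      rw [hC]
      linarith
    refine (sum_le_sum h3).trans ?_
    rw [sum_const, card_range, nsmul_eq_mul]
    have h4 := h1 x (by omega)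
    have h5 : ((Kx + 1 : ℕ) : ℝ) * C ≤ (x : ℝ) ^ (δ / 2) := by
      refine le_trans ?_ h4
      rw [mul_comm]
      apply mul_le_mul_of_nonneg_left _ hC0
      push_cast
      linarith
    have h6 : (x : ℝ) ^ (1 / 2 + δ) = (x : ℝ) ^ (δ / 2) * (√x * (x : ℝ) ^ (δ / 2)) := by
      rw [Real.sqrt_eq_rpow, ← Real.rpow_add hx0, ← Real.rpow_add hx0]
      congr 1
      ring
    rw [h6, ← mul_assoc]
    exact mul_le_mul_of_nonneg_right h5 (by positivity)
  linarith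

end Pool.Agent.T3h87.LT
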