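import Pool.Agent.T3h87.LT.Sps

/-!
# The theorem on weighted sums of functions of several residues
-/

set_option autoImplicit false

namespace Pool.Agent.T3h87.LT

open Finset Filter
open Pool.Agent.R459.Eq (pri mem_pri mean Vs)
open Pool.Agent.N794.CG (meanD meanD_eq)

open Classical in
/-- the functions with the weights, and the bad part -/
noncomputable def wsys {D : ℕ} (C : ℝ) (Z : MvPolynomial (Fin D) ℤ) (Ψ : ℕ → (Fin D → ℤ) → ℝ) (w : ℕ → ℕ → ℝ) (i p : ℕ)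
    (m : Fin D → ℤ) : ℝ :=
  if i % 2 = 0 then w (i / 2) p * Ψ p m / C else |Ψ p m| * (if (p : ℤ) ∣ MvPolynomial.eval m Z then 1 else 0) / C

lemma meanD_mul (p D : ℕ) (a : ℝ) (f : (Fin D → ℤ) → ℝ) : meanD p D (fun m => a * f m) = a * meanD p D f := by
  rw [meanD_eq, meanD_eq, ← mul_sum]
  ring

lemma meanD_nn (p D : ℕ) (f : (Fin D → ℤ) → ℝ) (h : ∀ m, 0 ≤ f m) : 0 ≤ meanD p D f := by
  rw [meanD_eq]
  exact mul_nonneg (by positivity) (sum_nonneg fun m _ => h _)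

section
variable {D : ℕ} (Z : MvPolynomial (Fin D) ℤ)
    (Ψ : ℕ → (Fin D → ℤ) → ℝ) (hper : ∀ p : ℕ, p.Prime → ∀ m m' : Fin D → ℤ, (∀ l, (p : ℤ) ∣ m l - m' l) → Ψ p m = Ψ p m')
    (C : ℝ) (hC : 1 ≤ C) (hbd : ∀ p : ℕ, p.Prime → ∀ m, |Ψ p m| ≤ C * √p)
    (hsq : ∀ p : ℕ, p.Prime → meanD p D (fun m => Ψ p m ^ 2) ≤ C)
    (w : ℕ → ℕ → ℝ) (hw : ∀ j p, |w j p| ≤ 1)

include hper hC hbd hsq hw in
lemma wsys_sys : SysR (wsys C Z Ψ w) := by
  classical
  have hC0 : 0 < C := by linarith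
  refine ⟨fun i p hp m m' h => ?_, fun i p hp m => ?_, fun i p hp => ?_⟩
  · have h1 : ((p : ℤ) ∣ MvPolynomial.eval m Z) ↔ ((p : ℤ) ∣ MvPolynomial.eval m' Z) := by
      have h2 : (fun l => (m l : ZMod p)) = fun l => (m' l : ZMod p) := by
        funext l
        have h3 := (ZMod.intCast_zmod_eq_zero_iff_dvd (m l - m' l) p).2 (h l)
        push_cast at h3
        exact sub_eq_zero.1 h3
      rw [dvd_eval, dvd_eval, h2]
    unfold wsys
    rw [hper p hp m m' h]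
    simp only [h1]
  · unfold wsys
    have h1 := hbd p hp m
    split_ifs with h2 h3
    · rw [abs_div, abs_of_pos hC0, div_le_iff₀ hC0, abs_mul]
      have h4 := hw (i / 2) p
      have h5 := abs_nonneg (Ψ p m)
      calc |w (i / 2) p| * |Ψ p m| ≤ 1 * |Ψ p m| := mul_le_mul_of_nonneg_right h4 h5
        _ ≤ √p * C := by linarith
    · rw [mul_one, abs_div, abs_of_pos hC0, div_le_iff₀ hC0, abs_abs]
      linarith
    · rw [mul_zero, zero_div, abs_zero]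
      exact Real.sqrt_nonneg _
  · have h1 : ∀ m, wsys C Z Ψ w i p m ^ 2 ≤ (1 / C ^ 2) * Ψ p m ^ 2 := by
      intro m
      unfold wsys
      split_ifs with h2 h3
      · have h4 : w (i / 2) p ^ 2 ≤ 1 := by
          rw [sq_le_one_iff_abs_le_one]
          exact hw _ _
        rw [div_pow, mul_pow, div_eq_mul_inv, one_div, mul_comm ((C ^ 2)⁻¹)]
        apply mul_le_mul_of_nonneg_right _ (by positivity)
        nlinarith [sq_nonneg (Ψ p m)]
      · rw [mul_one, div_pow, sq_abs, div_eq_mul_inv, one_div, mul_comm]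
      · rw [mul_zero, zero_div, zero_pow two_ne_zero]
        positivity
    refine (meanD_mono p D _ _ h1).trans ?_
    rw [meanD_mul]
    have h2 := hsq p hp
    calc 1 / C ^ 2 * meanD p D (fun m => Ψ p m ^ 2) ≤ 1 / C ^ 2 * C := mul_le_mul_of_nonneg_left h2 (by positivity)
      _ = 1 / C := by field_simp
      _ ≤ 1 := by rw [div_le_one hC0]; exact hC

include hC hsq hw in
open Classical in
lemma wsys_mean (hmn : ∀ p : ℕ, p.Prime → |meanD p D (Ψ p)| ≤ C / √p) (CZ : ℝ) (hCZ : 1 ≤ CZ)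
    (hz : ∀ p : ℕ, p.Prime → meanD p D (fun m => if (p : ℤ) ∣ MvPolynomial.eval m Z then 1 else 0) ≤ CZ / p) (i p : ℕ) (hp : p.Prime) :
    |meanD p D (wsys C Z Ψ w i p)| ≤ (1 + √(C * CZ)) * (1 / √p) := by
  have hC0 : 0 < C := by linarith
  have hp0 : (0 : ℝ) < p := by exact_mod_cast hp.pos
  have hsp : 0 < √(p : ℝ) := Real.sqrt_pos.2 hp0
  by_cases h2 : i % 2 = 0
  · have e1 : wsys C Z Ψ w i p = fun m => (w (i / 2) p / C) * Ψ p m := by
      funext m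
      unfold wsys
      rw [if_pos h2]
      ring
    rw [e1, meanD_mul, abs_mul, abs_div, abs_of_pos hC0]
    have h3 := hmn p hp
    have h4 := hw (i / 2) p
    have h5 : |w (i / 2) p| / C ≤ 1 / C := div_le_div_of_nonneg_right h4 hC0.le
    calc |w (i / 2) p| / C * |meanD p D (Ψ p)| ≤ 1 / C * (C / √p) :=
          mul_le_mul h5 h3 (abs_nonneg _) (by positivity)
      _ = 1 * (1 / √p) := by field_simp
      _ ≤ _ := mul_le_mul_of_nonneg_right (by linarith [Real.sqrt_nonneg (C * CZ)]) (by positivity)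
  · have e1 : wsys C Z Ψ w i p = fun m => (1 / C) * (|Ψ p m| * (if (p : ℤ) ∣ MvPolynomial.eval m Z then 1 else 0)) := by
      funext m
      unfold wsys
      rw [if_neg h2]
      ring
    rw [e1, meanD_mul, abs_mul, abs_of_pos (by positivity : 0 < 1 / C)]
    have h3 := meanD_cs p D (fun m => |Ψ p m|) (fun m => if (p : ℤ) ∣ MvPolynomial.eval m Z then 1 else 0)
    have e2 : ∀ m, (if (p : ℤ) ∣ MvPolynomial.eval m Z then (1 : ℝ) else 0) ^ 2 = if (p : ℤ) ∣ MvPolynomial.eval m Z then 1 else 0 := by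
      intro m
      split_ifs <;> norm_num
    simp only [sq_abs, e2] at h3
    have h4 := hsq p hp
    have h5 := hz p hp
    have h6 : 0 ≤ meanD p D (fun m => Ψ p m ^ 2) := meanD_nn p D _ fun m => sq_nonneg _
    have h7 : 0 ≤ meanD p D (fun m => if (p : ℤ) ∣ MvPolynomial.eval m Z then (1 : ℝ) else 0) :=
      meanD_nn p D _ fun m => by split_ifs <;> norm_num
    have h8 : meanD p D (fun m => |Ψ p m| * (if (p : ℤ) ∣ MvPolynomial.eval m Z then 1 else 0)) ^ 2 ≤ (C * CZ) / p := by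
      refine h3.trans ((mul_le_mul h4 h5 h7 hC0.le).trans (le_of_eq ?_))
      ring
    have h9 : |meanD p D (fun m => |Ψ p m| * (if (p : ℤ) ∣ MvPolynomial.eval m Z then 1 else 0))| ≤ √((C * CZ) / p) :=
      Real.abs_le_sqrt h8
    rw [Real.sqrt_div (by positivity)] at h9
    have h10 : 1 / C ≤ 1 := by rw [div_le_one hC0]; exact hC
    calc 1 / C * |meanD p D (fun m => |Ψ p m| * (if (p : ℤ) ∣ MvPolynomial.eval m Z then 1 else 0))| ≤ 1 * (√(C * CZ) / √p) :=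
          mul_le_mul h10 h9 (abs_nonneg _) (by norm_num)
      _ = √(C * CZ) * (1 / √p) := by ring
      _ ≤ _ := mul_le_mul_of_nonneg_right (by linarith) (by positivity)

end

open Classical in
/-- **Weighted sums without an arbitrary set of primes which divide a polynomial.** -/
theorem sparse_main (D : ℕ) (F : Fin D → ℤ → Set Fam) (hF : ∀ l, Kind (F l)) (Z : MvPolynomial (Fin D) ℤ) (hZ : Z ≠ 0)
    (Ψ : ℕ → (Fin D → ℤ) → ℝ) (hper : ∀ p : ℕ, p.Prime → ∀ m m' : Fin D → ℤ, (∀ l, (p : ℤ) ∣ m l - m' l) → Ψ p m = Ψ p m')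
    (C : ℝ) (hC : 1 ≤ C) (hbd : ∀ p : ℕ, p.Prime → ∀ m, |Ψ p m| ≤ C * √p)
    (hsq : ∀ p : ℕ, p.Prime → meanD p D (fun m => Ψ p m ^ 2) ≤ C) (hmn : ∀ p : ℕ, p.Prime → |meanD p D (Ψ p)| ≤ C / √p)
    (δ : ℝ) (hδ : 0 < δ) (hδ1 : δ ≤ 1) :
    ∃ (W e K : ℕ) (ρ : ℝ), 1 ≤ W ∧ 1 ≤ K ∧ 0 < ρ ∧ ∀ κ : Fin D → ℤ, (∀ l, κ l ≠ 0) → ∃ X₀ : ℕ, 1 ≤ X₀ ∧ ∀ X : ℕ, X₀ ≤ X →
    ∀ f : Fin D → Fam, (∀ l, f l ∈ F l (κ l)) →
    ∀ w : ℕ → ℕ → ℝ, (∀ j p, |w j p| ≤ 1) → ∀ E : Finset (∀ l, (f l).ι), E ⊆ Fintype.piFinset (fun l => (f l).set) →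
    (∀ i ∈ E, ∃ x : ℕ, X ≤ x ∧ (∀ l, (x : ℝ) ^ W ≤ (f l).size) ∧ ∃ j : ℕ, (j + 1) ^ K ≤ x ∧
      ∃ R : Set ℕ, (∀ p ∈ R, (p : ℤ) ∣ MvPolynomial.eval (fun l => (f l).val (i l)) Z) ∧
      (x : ℝ) ^ (1 + δ) < |∑ p ∈ (pri x).filter (fun p => p ∉ R), w j p * (Ψ p (fun l => (f l).val (i l)) * (√p * Real.log p))|) →
    ∑ i ∈ E, ∏ l, (f l).wt (i l) ≤ (∑ l, (1 + |Real.log (f l).size|) ^ e) * (X : ℝ) ^ (-ρ) := by
  obtain ⟨CZ, hCZ, hz⟩ := zero_mean Z hZ
  obtain ⟨W, e, K, ρ, hW, hK, hρ, H⟩ := real_all D F hF (δ / 2) (by positivity) (by linarith)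
  obtain ⟨C₂, hC₂⟩ : ∃ C₂, C₂ = 1 + √(C * CZ) := ⟨_, rfl⟩
  have hC₂0 : 0 ≤ C₂ := by rw [hC₂]; positivity
  have hC0 : 0 < C := by linarith
  obtain ⟨X₁, hX₁, hfin⟩ := fin_ineq C C₂ δ hC hC₂0 hδ hδ1
  refine ⟨W, e, 12 * K, ρ / 8, hW, by omega, by positivity, fun κ hκ => ?_⟩
  obtain ⟨X₂, J⟩ := H κ hκ
  obtain ⟨N₀, hN₀⟩ : ∃ N₀, N₀ = X₂ + 2 ^ K + 2 := ⟨_, rfl⟩
  have h2K : 0 < 2 ^ K := by positivity
  refine ⟨X₁ + (N₀ + 1) ^ 4 + 256, by omega, fun X hX f hf w hw E hE hbad => ?_⟩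
  -- the fourth root
  have hroot : ∀ T : ℕ, (N₀ + 1) ^ 4 ≤ T → N₀ ≤ Nat.sqrt (Nat.sqrt T) := by
    intro T hT
    rw [Nat.le_sqrt', Nat.le_sqrt']
    calc (N₀ ^ 2) ^ 2 = N₀ ^ 4 := by rw [← pow_mul]
      _ ≤ (N₀ + 1) ^ 4 := Nat.pow_le_pow_left (by omega) 4
      _ ≤ T := hT
  obtain ⟨X', hX'⟩ : ∃ X', X' = Nat.sqrt (Nat.sqrt X) := ⟨_, rfl⟩
  have hX'1 : N₀ ≤ X' := by
    rw [hX']
    exact hroot X (by omega)
  have hXr : (256 : ℝ) ≤ X := by exact_mod_cast (by omega : 256 ≤ X)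
  have hX0 : (0 : ℝ) < X := by linarith
  have hX'r : (X : ℝ) ^ (1 / 8 : ℝ) ≤ X' := by
    have h1 : X < (X' + 1) ^ 4 := by
      have h2 := Nat.lt_succ_sqrt' X
      have h3 := Nat.lt_succ_sqrt' (Nat.sqrt X)
      rw [← hX'] at h3
      calc X < (Nat.sqrt X).succ ^ 2 := h2
        _ ≤ (X'.succ ^ 2) ^ 2 := Nat.pow_le_pow_left (Nat.succ_le_of_lt h3) 2
        _ = (X' + 1) ^ 4 := by rw [← pow_mul]
    have h2 : (X : ℝ) ≤ (2 * X') ^ 4 := by
      have h3 : (X' + 1) ^ 4 ≤ (2 * X') ^ 4 := Nat.pow_le_pow_left (by omega) 4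
      exact_mod_cast (h1.trans_le h3).le
    have h3 : (X : ℝ) ^ (1 / 4 : ℝ) ≤ 2 * X' := by
      calc (X : ℝ) ^ (1 / 4 : ℝ) ≤ ((2 * (X' : ℝ)) ^ 4) ^ (1 / 4 : ℝ) := Real.rpow_le_rpow hX0.le h2 (by norm_num)
        _ = 2 * X' := by
          rw [← Real.rpow_natCast, ← Real.rpow_mul (by positivity)]
          norm_num
    have h4 : (2 : ℝ) ≤ (X : ℝ) ^ (1 / 8 : ℝ) := by
      calc (2 : ℝ) = (256 : ℝ) ^ (1 / 8 : ℝ) := by
            rw [show (256 : ℝ) = 2 ^ (8 : ℕ) by norm_num, ← Real.rpow_natCast, ← Real.rpow_mul (by norm_num)]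
            norm_num
        _ ≤ _ := Real.rpow_le_rpow (by norm_num) hXr (by norm_num)
    have h5 : (X : ℝ) ^ (1 / 4 : ℝ) = (X : ℝ) ^ (1 / 8 : ℝ) * (X : ℝ) ^ (1 / 8 : ℝ) := by
      rw [← Real.rpow_add hX0]
      norm_num
    nlinarith
  have hmono : (∑ l, (1 + |Real.log (f l).size|) ^ e) * (X' : ℝ) ^ (-ρ) ≤ (∑ l, (1 + |Real.log (f l).size|) ^ e) * (X : ℝ) ^ (-(ρ / 8)) := by
    apply mul_le_mul_of_nonneg_left _ (sum_nonneg fun l _ => by positivity)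
    calc (X' : ℝ) ^ (-ρ) ≤ ((X : ℝ) ^ (1 / 8 : ℝ)) ^ (-ρ) :=
          Real.rpow_le_rpow_of_nonpos (by positivity) hX'r (by linarith)
      _ = (X : ℝ) ^ (-(ρ / 8)) := by
          rw [← Real.rpow_mul hX0.le]
          congr 1
          ring
  refine le_trans (J X' (by omega) f hf (wsys C Z Ψ w) (wsys_sys Z Ψ hper C hC hbd hsq w hw) E hE fun i hi => ?_) hmono
  obtain ⟨T, hXT, hsz, j, hj, R, hR, hlt⟩ := hbad i hi
  obtain ⟨m, hm⟩ : ∃ m : Fin D → ℤ, m = fun l => (f l).val (i l) := ⟨_, rfl⟩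
  rw [← hm] at hlt hR ⊢
  by_contra hcon
  push Not at hcon
  obtain ⟨s, hs⟩ : ∃ s, s = Nat.sqrt (Nat.sqrt T) := ⟨_, rfl⟩
  have hsN : N₀ ≤ s := by rw [hs]; exact hroot T (by omega)
  have hX's : X' ≤ s := by
    rw [hX', hs]
    exact Nat.sqrt_le_sqrt (Nat.sqrt_le_sqrt hXT)
  have hT1 : (1 : ℝ) ≤ T := by exact_mod_cast (by omega : 1 ≤ T)
  have hT0 : (0 : ℝ) < T := by linarith
  have hsj : (j + 1) ^ (3 * K) ≤ s := by
    rw [hs, Nat.le_sqrt', Nat.le_sqrt', ← pow_mul, ← pow_mul]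
    refine le_trans (le_of_eq ?_) hj
    congr 1
    ring
  obtain ⟨M, hM⟩ : ∃ M, M = (T : ℝ) ^ (1 / 2 + δ / 2) + 2 * C₂ * √T := ⟨_, rfl⟩
  have hM0 : 0 ≤ M := by rw [hM]; positivity
  -- the partial sums
  have hS : ∀ i' : ℕ, i' + 1 ≤ 2 * (j + 1) → ∀ n ≤ T, |∑ p ∈ pri n, wsys C Z Ψ w i' p m| ≤ M := by
    intro i' hi' n hn
    have hsys := wsys_sys Z Ψ hper C hC hbd hsq w hw
    have hnT : (n : ℝ) ≤ T := by exact_mod_cast hn
    rcases lt_or_ge n s with hns | hns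
    · have h1 : |∑ p ∈ pri n, wsys C Z Ψ w i' p m| ≤ ∑ p ∈ pri n, (n : ℝ) := by
        refine (abs_sum_le_sum_abs _ _).trans (sum_le_sum fun p hp => ?_)
        have hpp := mem_pri.1 hp
        refine (hsys.bd i' p hpp.2 m).trans ?_
        rw [Real.sqrt_le_left (Nat.cast_nonneg _)]
        have h2 : (p : ℝ) ≤ n := by exact_mod_cast hpp.1
        have h3 : (1 : ℝ) ≤ n := le_trans (by exact_mod_cast hpp.2.one_lt.le) h2
        nlinarith
      rw [sum_const, nsmul_eq_mul] at h1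
      have h2 := pri_card n
      have h3 : ((pri n).card : ℝ) * n ≤ √T := by
        have h4 : n * n ≤ Nat.sqrt T := by
          have h5 : s * s ≤ Nat.sqrt T := by rw [hs]; exact Nat.sqrt_le _
          exact (Nat.mul_le_mul hns.le hns.le).trans h5
        have h5 : ((n : ℝ)) * n ≤ Nat.sqrt T := by exact_mod_cast h4
        have h6 : (Nat.sqrt T : ℝ) ≤ √T := by
          apply Real.le_sqrt_of_sq_le
          have := Nat.sqrt_le' T
          exact_mod_cast this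
        exact ((mul_le_mul_of_nonneg_right h2 (Nat.cast_nonneg n)).trans h5).trans h6
      have h4 : √(T : ℝ) ≤ (T : ℝ) ^ (1 / 2 + δ / 2) := by
        rw [Real.sqrt_eq_rpow]
        exact Real.rpow_le_rpow_of_exponent_le hT1 (by linarith)
      have h5 : 0 ≤ 2 * C₂ * √(T : ℝ) := by positivity
      rw [hM]
      linarith
    · have hn1 : (1 : ℝ) ≤ n := by exact_mod_cast (by omega : 1 ≤ n)
      have hidx : (i' + 1) ^ K ≤ n := by
        refine le_trans (Nat.pow_le_pow_left hi' K) ?_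
        rcases Nat.eq_zero_or_pos j with h0 | h0
        · subst h0
          rw [zero_add, mul_one]
          omega
        · have h1 : 2 * (j + 1) ≤ (j + 1) ^ 3 := by
            have h3 : 2 ≤ (j + 1) ^ 2 := by nlinarith
            calc 2 * (j + 1) ≤ (j + 1) ^ 2 * (j + 1) := Nat.mul_le_mul_right _ h3
              _ = (j + 1) ^ 3 := by ring
          calc (2 * (j + 1)) ^ K ≤ ((j + 1) ^ 3) ^ K := Nat.pow_le_pow_left h1 K
            _ = (j + 1) ^ (3 * K) := by rw [← pow_mul]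
            _ ≤ n := hsj.trans hns
      have h1 := hcon n (by omega) (fun l => le_trans (pow_le_pow_left₀ (Nat.cast_nonneg _) hnT W) (hsz l)) i' hidx
      have h2 : |∑ p ∈ pri n, meanD p D (wsys C Z Ψ w i' p)| ≤ 2 * C₂ * √T := by
        refine (abs_sum_le_sum_abs _ _).trans ?_
        calc ∑ p ∈ pri n, |meanD p D (wsys C Z Ψ w i' p)| ≤ ∑ p ∈ pri n, C₂ * (1 / √p) := by
              refine sum_le_sum fun p hp => ?_
              rw [hC₂]
              exact wsys_mean Z Ψ C hC hsq w hw hmn CZ hCZ hz i' p (mem_pri.1 hp).2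
          _ = C₂ * ∑ p ∈ pri n, (1 / √(p : ℝ)) := by rw [mul_sum]
          _ ≤ C₂ * (2 * √n) := mul_le_mul_of_nonneg_left (sum_inv_sqrt n) hC₂0
          _ ≤ C₂ * (2 * √T) := by
              apply mul_le_mul_of_nonneg_left _ hC₂0
              have := Real.sqrt_le_sqrt hnT
              linarith
          _ = _ := by ring
      have h3 : (n : ℝ) ^ (1 / 2 + δ / 2) ≤ (T : ℝ) ^ (1 / 2 + δ / 2) :=
        Real.rpow_le_rpow (Nat.cast_nonneg _) hnT (by linarith)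
      rw [sum_sub_distrib] at h1
      have h4 := abs_add_le (∑ p ∈ pri n, wsys C Z Ψ w i' p m - ∑ p ∈ pri n, meanD p D (wsys C Z Ψ w i' p))
        (∑ p ∈ pri n, meanD p D (wsys C Z Ψ w i' p))
      rw [sub_add_cancel] at h4
      rw [hM]
      linarith
  -- summation by parts
  obtain ⟨g, hg⟩ : ∃ g : ℕ → ℝ, g = fun n : ℕ => √(n : ℝ) * Real.log n := ⟨_, rfl⟩
  have hgm : Monotone g := by rw [hg]; exact mono_g
  have hg0 : ∀ n, 0 ≤ g n := fun n => by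
    rw [hg]
    exact mul_nonneg (Real.sqrt_nonneg _) (Real.log_natCast_nonneg _)
  have hP : ∀ i' : ℕ, i' + 1 ≤ 2 * (j + 1) → |∑ p ∈ pri T, wsys C Z Ψ w i' p m * g p| ≤ 2 * (g (T + 1) * M) := by
    intro i' hi'
    have epri : ∀ n, (range (n + 1)).filter Nat.Prime = pri n := by
      intro n
      ext p
      rw [mem_filter, mem_range, mem_pri]
      constructor
      · rintro ⟨h1, h2⟩
        exact ⟨by omega, h2⟩
      · rintro ⟨h1, h2⟩
        exact ⟨by omega, h2⟩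
    have h1 := parts (fun n => if n.Prime then wsys C Z Ψ w i' n m else 0) g hgm (hg0 0) M (T + 1) (by
      intro k hk
      rcases Nat.eq_zero_or_pos k with h0 | h0
      · subst h0
        rw [sum_range_zero, abs_zero]
        exact hM0
      · obtain ⟨n, rfl⟩ : ∃ n, k = n + 1 := ⟨k - 1, by omega⟩
        rw [← sum_filter, epri]
        exact hS i' hi' n (by omega))
    have h2 : ∑ n ∈ range (T + 1), (if n.Prime then wsys C Z Ψ w i' n m else 0) * g n = ∑ p ∈ pri T, wsys C Z Ψ w i' p m * g p := by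
      rw [← epri, sum_filter]
      refine sum_congr rfl fun n _ => ?_
      split_ifs
      · rfl
      · rw [zero_mul]
    rw [h2] at h1
    exact h1
  have h1 := hP (2 * j) (by omega)
  have h2 := hP 1 (by omega)
  have e1 : ∑ p ∈ pri T, wsys C Z Ψ w (2 * j) p m * g p = (1 / C) * ∑ p ∈ pri T, w j p * (Ψ p m * (√p * Real.log p)) := by
    rw [mul_sum]
    refine sum_congr rfl fun p _ => ?_
    unfold wsys
    rw [if_pos (by omega), hg]
    have : 2 * j / 2 = j := by omega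
    rw [this]
    ring
  have e2 : ∑ p ∈ pri T, wsys C Z Ψ w 1 p m * g p = (1 / C) * ∑ p ∈ pri T, |Ψ p m| * (if (p : ℤ) ∣ MvPolynomial.eval m Z then 1 else 0) * g p := by
    rw [mul_sum]
    refine sum_congr rfl fun p _ => ?_
    unfold wsys
    rw [if_neg (by norm_num)]
    ring
  have hCi : 0 < 1 / C := by positivity
  rw [e1, abs_mul, abs_of_pos hCi, div_mul_eq_mul_div, one_mul, div_le_iff₀ hC0] at h1
  rw [e2, abs_mul, abs_of_pos hCi, div_mul_eq_mul_div, one_mul, div_le_iff₀ hC0] at h2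
  -- the primes in `R`
  have h3 : ∑ p ∈ (pri T).filter (fun p => p ∉ R), w j p * (Ψ p m * (√p * Real.log p)) =
      ∑ p ∈ pri T, w j p * (Ψ p m * (√p * Real.log p)) - ∑ p ∈ (pri T).filter (fun p => ¬ p ∉ R), w j p * (Ψ p m * (√p * Real.log p)) := by
    rw [← sum_filter_add_sum_filter_not (pri T) (fun p => p ∉ R)]
    ring
  have h4 : |∑ p ∈ (pri T).filter (fun p => ¬ p ∉ R), w j p * (Ψ p m * (√p * Real.log p))| ≤
      ∑ p ∈ pri T, |Ψ p m| * (if (p : ℤ) ∣ MvPolynomial.eval m Z then 1 else 0) * g p := by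
    refine (abs_sum_le_sum_abs _ _).trans ?_
    rw [sum_filter]
    refine sum_le_sum fun p _ => ?_
    have hgp : 0 ≤ √(p : ℝ) * Real.log p := mul_nonneg (Real.sqrt_nonneg _) (Real.log_natCast_nonneg _)
    by_cases hpR : p ∈ R
    · rw [if_pos (not_not.2 hpR), if_pos (hR p hpR), abs_mul, abs_mul, abs_of_nonneg hgp, hg, mul_one]
      have h8 := hw j p
      have h9 : 0 ≤ |Ψ p m| * (√(p : ℝ) * Real.log p) := mul_nonneg (abs_nonneg _) hgp
      calc |w j p| * (|Ψ p m| * (√(p : ℝ) * Real.log p)) ≤ 1 * (|Ψ p m| * (√(p : ℝ) * Real.log p)) :=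
            mul_le_mul_of_nonneg_right h8 h9
        _ = _ := one_mul _
    · rw [if_neg (not_not.2 hpR)]
      exact mul_nonneg (mul_nonneg (abs_nonneg _) (by split_ifs <;> norm_num)) (hg0 p)
  have h5 : |∑ p ∈ (pri T).filter (fun p => p ∉ R), w j p * (Ψ p m * (√p * Real.log p))| ≤ 4 * C * (g (T + 1) * M) := by
    rw [h3]
    refine (abs_sub _ _).trans ?_
    have h6 := h4.trans ((le_abs_self _).trans h2)
    linarith
  have h6 := hfin T (by omega)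
  rw [← hM] at h6
  have h7 : g (T + 1) = √((T + 1 : ℕ) : ℝ) * Real.log ((T + 1 : ℕ) : ℝ) := by rw [hg]
  rw [h7] at h5
  linarith

end Pool.Agent.T3h87.LT
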